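import Pool.Agent.Helper85.AE.Arith
import Pool.Agent.TH935.GF

/-!
# Goldbach's conjecture for almost all aliquot sums and cototients

Let `s(m) = σ(m) - m` be the sum of the proper divisors of `m`. For almost all even `m` both `s(m)` and `m - φ(m)` are sums
of two distinct primes, and the number of the representations is the one predicted by Hardy and Littlewood, also if the
smaller prime is restricted to an arbitrary window of a length of at least `n / (log n)^W`. The same is true for all linear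
combinations `F(m) = u m + v f(m) + w` with integers `u ≠ 0`, `v`, `w`, where `f` is any positive multiplicative function of
moderate growth with `f(p) = p + c`, `c ≠ 0`, for all large primes `p`: for almost all `m` with `F(m)` even and
`F(m) ≥ m / (log m)^C` the formula holds for `F(m)`.

The starting files contain this for the `m` with a prime factor larger than `m^(1/3 + ρ)` (a lower bound for
`m^(3/10 + ρ)`), so for about 70 per cent of the even `m`; there the values with a fixed cofactor are treated as the members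
of a residue class to a modulus up to `x^(7/10)`, and smaller prime factors lead to larger moduli. A set of `x^(1 - δ)`
integers could contain `s(m)` for a positive proportion of all `m ≤ x`, as far as is known, unless `δ ≥ 1/2`
(Pollack, Pomerance and Thompson), so the result does not follow from any known bound for the number of the exceptions in
Goldbach's problem.

Proof. Almost all `m ≤ x` are products `k Q P` with primes `Q, P > x^τ` not dividing `k` resp. each other, so
`F(m) = (A(k) Q + B(k)) P + C(k, Q)` with `A(k) = u k + v f(k)`, `B(k) = v c f(k)`, and `c A(k) - B(k) = c u k`. The number of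
the solutions of `F(m_1) + ... + F(m_h) = F(m_(h+1)) + ... + F(m_(2h))` with such `m_i` is at most `x^(2h - 1)` times a power
of `log x`, if `h` is large in terms of `τ` (`Helper85/AE`): extend `Q` and `P` to all integers. If the exponential sum over
`k, Q, P` is larger than `x / V` at a frequency `α`, then `α (A(k) Q + B(k))` is close to an integer for many pairs; the lemma
of Vinogradov, applied to `Q` for many `k`, gives one multiplier `q` such that `q α A(k)` and `q α B(k)`, therefore also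
`q α c u k`, are close to integers for many `k`; applied once more to `k` it shows that `α` is close to a fraction with a
small denominator. The theorem on Goldbach representations for families of small additive energy (`TH935/GF`, starting
files) completes the proof.
-/

set_option autoImplicit false

namespace Pool.Agent.Results.MP_7b7e48_nt.AliquotSums

open Finset Filter Topology
open Pool.Agent.H560R3.GB (sing)
open Pool.Agent.W93.PG (cnt WinP)

/-- the set `M_n` of the pairs `(p, p')` of primes with `p + p' = 2 n` and `p > n > p'` -/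
def M (n : ℕ) : Finset (ℕ × ℕ) :=
  (range (2 * n + 1) ×ˢ range (2 * n + 1)).filter
    (fun x => x.1.Prime ∧ x.2.Prime ∧ x.1 + x.2 = 2 * n ∧ n < x.1 ∧ x.2 < n)

/-- `g(n)`, the number of the elements of `M_n` -/
def g (n : ℕ) : ℕ := (M n).card

/-- the number of the elements `(p, p')` of `M_n` with `y₁ < p' ≤ y₂` -/
def gw (n y₁ y₂ : ℕ) : ℕ := ((M n).filter (fun x => y₁ < x.2 ∧ x.2 ≤ y₂)).card

/-- the prediction of Hardy and Littlewood for the number of the pairs in a window of the length `l` -/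
noncomputable def pred (n : ℕ) (l : ℝ) : ℝ := sing (2 * n) * l / Real.log ((2 * n : ℕ) : ℝ) ^ 2

/-- (1) `g n` is `pred n n`, up to a relative error of at most `ε`; (2) in every window `(y₁, y₂]` with
`0 ≤ y₁ < y₂ < n` and `y₂ - y₁ ≥ n / (log n)^W` the number of the pairs is `pred n (y₂ - y₁)`, up to a relative error
of at most `ε`. -/
def Formula (ε : ℝ) (W n : ℕ) : Prop :=
  |(g n : ℝ) - pred n n| ≤ ε * pred n n ∧
  ∀ y₁ y₂ : ℕ, y₁ < y₂ → y₂ < n → (n : ℝ) / Real.log n ^ W ≤ (y₂ : ℝ) - y₁ →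
    |(gw n y₁ y₂ : ℝ) - pred n ((y₂ : ℝ) - y₁)| ≤ ε * pred n ((y₂ : ℝ) - y₁)

/-- A positive multiplicative function with `f m ≤ m (1 + log m)^C` and `f p = p + c` for all large primes `p`. -/
structure Moderate (f : ℕ → ℕ) (c : ℤ) : Prop where
  mul : ∀ m n : ℕ, Nat.Coprime m n → f (m * n) = f m * f n
  pos : ∀ m : ℕ, 1 ≤ m → 1 ≤ f m
  growth : ∃ C : ℕ, ∀ m : ℕ, 1 ≤ m → (f m : ℝ) ≤ m * (1 + Real.log m) ^ C
  prime : ∃ P : ℕ, ∀ p : ℕ, P ≤ p → p.Prime → (f p : ℤ) = p + c

open Classical in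
/-- The proportion of the positive integers `m ≤ N` without the property `P` tends to `0`. -/
def AlmostAll (P : ℕ → Prop) : Prop :=
  Tendsto (fun N : ℕ => (((Icc 1 N).filter (fun m => ¬ P m)).card : ℝ) / N) atTop (𝓝 0)

/-- The sum of the proper divisors. -/
def aliquot (m : ℕ) : ℕ := ∑ d ∈ m.properDivisors, d

/-- `n` is the sum of two distinct primes. -/
def SumOfTwo (n : ℕ) : Prop := ∃ p q : ℕ, p.Prime ∧ q.Prime ∧ p ≠ q ∧ p + q = n

lemma gw_eq (n y₁ y₂ : ℕ) (h : y₂ < n) : gw n y₁ y₂ = cnt (2 * n) y₁ y₂ := by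
  unfold gw cnt M
  refine card_bij (fun x _ => x.2) ?_ ?_ ?_
  · intro x hx
    rw [mem_filter, mem_filter, mem_product, mem_range, mem_range] at hx
    obtain ⟨⟨⟨h1, h2⟩, h3, h4, h5, h6, h7⟩, h8, h9⟩ := hx
    rw [mem_filter, mem_Ioc]
    refine ⟨⟨h8, h9⟩, h4, ?_⟩
    have e : 2 * n - x.2 = x.1 := by omega
    rw [e]
    exact h3
  · intro x hx y hy he
    rw [mem_filter, mem_filter] at hx hy
    obtain ⟨⟨-, -, -, h5, -⟩, -⟩ := hx
    obtain ⟨⟨-, -, -, h5', -⟩, -⟩ := hy
    exact Prod.ext (by omega) he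
  · intro p hp
    rw [mem_filter, mem_Ioc] at hp
    obtain ⟨⟨h1, h2⟩, h3, h4⟩ := hp
    refine ⟨(2 * n - p, p), ?_, rfl⟩
    rw [mem_filter, mem_filter, mem_product, mem_range, mem_range]
    exact ⟨⟨⟨by simp only; omega, by simp only; omega⟩, h4, h3, by simp only; omega, by simp only; omega,
      by simp only; omega⟩, h1, h2⟩

lemma g_eq (n : ℕ) (hn : 1 ≤ n) : g n = gw n 0 (n - 1) := by
  unfold g gw
  congr 1
  symm
  rw [filter_eq_self]
  intro x hx
  unfold M at hx
  rw [mem_filter] at hx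
  obtain ⟨-, -, h4, -, -, h7⟩ := hx
  have := h4.pos
  exact ⟨this, by omega⟩

lemma pred_nn {n : ℕ} {l : ℝ} (hl : 0 ≤ l) : 0 ≤ pred n l := by
  unfold pred
  have := Pool.Agent.W93.GB.one_le_sing (2 * n)
  positivity

lemma pred_sub (n : ℕ) (hn : 1 ≤ n) : pred n (((n - 1 : ℕ) : ℝ) - ((0 : ℕ) : ℝ)) = pred n n - pred n n / n := by
  unfold pred
  rw [Nat.cast_sub hn]
  have hn0 : (0 : ℝ) < n := by exact_mod_cast hn
  push_cast
  field_simp
  ring

lemma log_ge_two {n : ℕ} (hn : 8 ≤ n) : 2 ≤ Real.log n := by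
  have hn0 : (8 : ℝ) ≤ n := by exact_mod_cast hn
  have h8 : 2 ≤ Real.log (8 : ℝ) := by
    have : (8 : ℝ) = 2 ^ 3 := by norm_num
    rw [this, Real.log_pow]
    have := Real.log_two_gt_d9
    push_cast
    linarith
  exact h8.trans (Real.log_le_log (by norm_num) hn0)

lemma len_one {n : ℕ} (hn : 8 ≤ n) : (n : ℝ) / Real.log n ^ 1 ≤ ((n - 1 : ℕ) : ℝ) - ((0 : ℕ) : ℝ) := by
  rw [Nat.cast_sub (by omega), pow_one]
  have hn0 : (8 : ℝ) ≤ n := by exact_mod_cast hn
  have h3 : (n : ℝ) / Real.log n ≤ n / 2 := div_le_div_of_nonneg_left (by linarith) (by norm_num) (log_ge_two hn)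
  push_cast
  linarith

lemma win_len {n W : ℕ} (hn : 8 ≤ n) {Δ : ℝ} (h : (n : ℝ) / Real.log n ^ W ≤ Δ) :
    ((2 * n : ℕ) : ℝ) / Real.log ((2 * n : ℕ) : ℝ) ^ (W + 1) ≤ Δ := by
  refine le_trans ?_ h
  have hn0 : (8 : ℝ) ≤ n := by exact_mod_cast hn
  have h1 : Real.log n ≤ Real.log ((2 * n : ℕ) : ℝ) := Real.log_le_log (by linarith) (by push_cast; linarith)
  have h2 : 2 ≤ Real.log n := log_ge_two hn
  obtain ⟨l, hl⟩ : ∃ l, l = Real.log (n : ℝ) := ⟨_, rfl⟩
  obtain ⟨l', hl'⟩ : ∃ l', l' = Real.log ((2 * n : ℕ) : ℝ) := ⟨_, rfl⟩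
  rw [← hl, ← hl'] at h1
  rw [← hl] at h2
  rw [← hl, ← hl']
  push_cast
  have h4 : 2 ≤ l' := by linarith
  have h5 : 0 < l' := by linarith
  have h3 : l ^ W ≤ l' ^ W := pow_le_pow_left₀ (by linarith) h1 _
  have hl0 : 0 < l ^ W := by positivity
  rw [div_le_div_iff₀ (by positivity) hl0]
  calc 2 * (n : ℝ) * l ^ W ≤ 2 * (n : ℝ) * l' ^ W := by gcongr
    _ ≤ l' * (n : ℝ) * l' ^ W := by gcongr
    _ = n * l' ^ (W + 1) := by ring

lemma formula_of (ε : ℝ) (hε : 0 < ε) (W : ℕ) : ∃ n₀ : ℕ, ∀ n : ℕ, n₀ ≤ n →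
    WinP (ε / 2) (W + 2) (2 * n) → Formula ε W n := by
  obtain ⟨m, hm⟩ : ∃ m : ℕ, 2 / ε ≤ m := exists_nat_ge _
  refine ⟨8 + m, fun n hn hw => ?_⟩
  have hn8 : 8 ≤ n := by omega
  have hn0 : (8 : ℝ) ≤ n := by exact_mod_cast hn8
  have hnm : 2 / ε ≤ n := hm.trans (by exact_mod_cast (by omega : m ≤ n))
  have hwin : ∀ y₁ y₂ : ℕ, y₁ < y₂ → y₂ < n → (n : ℝ) / Real.log n ^ (W + 1) ≤ (y₂ : ℝ) - y₁ →
    |(gw n y₁ y₂ : ℝ) - pred n ((y₂ : ℝ) - y₁)| ≤ ε / 2 * pred n ((y₂ : ℝ) - y₁) := by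
    intro y₁ y₂ h1 h2 h3
    have k1 := hw y₁ y₂ h1 (by omega) (win_len hn8 h3)
    rw [← gw_eq n y₁ y₂ h2] at k1
    exact k1
  have hL : 2 ≤ Real.log n := log_ge_two hn8
  have hmono : ∀ i j : ℕ, i ≤ j → (n : ℝ) / Real.log n ^ j ≤ n / Real.log n ^ i := fun i j hij =>
    div_le_div_of_nonneg_left (by linarith) (by positivity) (pow_le_pow_right₀ (by linarith) hij)
  constructor
  · have k1 := hwin 0 (n - 1) (by omega) (by omega) ((hmono 1 (W + 1) (by omega)).trans (len_one hn8))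
    rw [pred_sub n (by omega), ← g_eq n (by omega)] at k1
    have k2 : 0 ≤ pred n n := pred_nn (by linarith)
    have k3 : pred n n / n ≤ ε / 2 * pred n n := by
      rw [div_le_iff₀ (by linarith)]
      have : 1 ≤ ε / 2 * n := by
        rw [div_le_iff₀ hε] at hnm
        linarith
      nlinarith
    have k4 : 0 ≤ pred n n / n := by positivity
    rw [abs_le] at k1 ⊢
    have k5 : ε / 2 * (pred n n - pred n n / n) ≤ ε / 2 * pred n n := by
      apply mul_le_mul_of_nonneg_left _ (by positivity)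
      linarith
    constructor <;> linarith [k1.1, k1.2]
  · intro y₁ y₂ h1 h2 h3
    refine (hwin y₁ y₂ h1 h2 ((hmono W (W + 1) (by omega)).trans h3)).trans ?_
    apply mul_le_mul_of_nonneg_right (by linarith)
    apply pred_nn
    have : (y₁ : ℝ) ≤ y₂ := by exact_mod_cast h1.le
    linarith

open Classical in
theorem almostAll_iff (P : ℕ → Prop) : AlmostAll P ↔ ∀ ε : ℝ, 0 < ε → ∃ N₀ : ℕ, ∀ N : ℕ, N₀ ≤ N →
    (((Icc 1 N).filter (fun m => ¬ P m)).card : ℝ) ≤ ε * N := by
  unfold AlmostAll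
  rw [Metric.tendsto_atTop]
  constructor
  · intro h ε hε
    obtain ⟨N₀, hN₀⟩ := h ε hε
    refine ⟨max N₀ 1, fun N hN => ?_⟩
    have h1 := hN₀ N (le_trans (le_max_left _ _) hN)
    have h2 : (0 : ℝ) < N := by exact_mod_cast (le_trans (le_max_right N₀ 1) hN)
    rw [Real.dist_eq, sub_zero, abs_of_nonneg (by positivity), div_lt_iff₀ h2] at h1
    exact h1.le
  · intro h ε hε
    obtain ⟨N₀, hN₀⟩ := h (ε / 2) (by positivity)
    refine ⟨max N₀ 1, fun N hN => ?_⟩
    have h1 := hN₀ N (le_trans (le_max_left _ _) hN)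
    have h2 : (0 : ℝ) < N := by exact_mod_cast (le_trans (le_max_right N₀ 1) hN)
    rw [Real.dist_eq, sub_zero, abs_of_nonneg (by positivity), div_lt_iff₀ h2]
    nlinarith

theorem almostAll_and {P Q R : ℕ → Prop} (hP : AlmostAll P) (hQ : AlmostAll Q) (m₀ : ℕ)
    (h : ∀ m, m₀ ≤ m → P m → Q m → R m) : AlmostAll R := by
  classical
  rw [almostAll_iff] at *
  intro ε hε
  obtain ⟨N₁, h₁⟩ := hP (ε / 3) (by positivity)
  obtain ⟨N₂, h₂⟩ := hQ (ε / 3) (by positivity)
  obtain ⟨N₃, h₃⟩ := exists_nat_gt (3 * m₀ / ε)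
  refine ⟨max N₁ (max N₂ N₃), fun N hN => ?_⟩
  have b1 := h₁ N (le_trans (le_max_left _ _) hN)
  have b2 := h₂ N (le_trans (le_trans (le_max_left _ _) (le_max_right _ _)) hN)
  have b3 : (N₃ : ℝ) ≤ N := by exact_mod_cast (le_trans (le_trans (le_max_right _ _) (le_max_right _ _)) hN)
  have b4 : (m₀ : ℝ) ≤ ε / 3 * N := by
    have : 3 * m₀ / ε ≤ N := by linarith
    rw [div_le_iff₀ hε] at this
    linarith
  have hsub : (Icc 1 N).filter (fun m => ¬ R m) ⊆
      ((Icc 1 N).filter (fun m => ¬ P m) ∪ (Icc 1 N).filter (fun m => ¬ Q m)) ∪ Icc 1 m₀ := by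
    intro m hm
    rw [mem_filter, mem_Icc] at hm
    rw [mem_union, mem_union, mem_filter, mem_filter, mem_Icc, mem_Icc]
    by_cases h1 : P m
    · by_cases h2 : Q m
      · by_cases h3 : m₀ ≤ m
        · exact absurd (h m h3 h1 h2) hm.2
        · right
          omega
      · left; right
        exact ⟨hm.1, h2⟩
    · left; left
      exact ⟨hm.1, h1⟩
  have hc : ((Icc 1 N).filter (fun m => ¬ R m)).card ≤
      (((Icc 1 N).filter (fun m => ¬ P m)).card + ((Icc 1 N).filter (fun m => ¬ Q m)).card) + m₀ := by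
    refine (card_le_card hsub).trans ((card_union_le _ _).trans ?_)
    have := card_union_le ((Icc 1 N).filter (fun m => ¬ P m)) ((Icc 1 N).filter (fun m => ¬ Q m))
    rw [Nat.card_Icc]
    omega
  have hc' : (((Icc 1 N).filter (fun m => ¬ R m)).card : ℝ) ≤
      ((((Icc 1 N).filter (fun m => ¬ P m)).card : ℝ) + ((Icc 1 N).filter (fun m => ¬ Q m)).card) + m₀ := by
    exact_mod_cast hc
  linarith

theorem mod_of {f : ℕ → ℕ} {c : ℤ} (hf : Moderate f c) : Pool.Agent.Helper85.AE.Mod f c :=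
  ⟨hf.mul, hf.pos, hf.growth, hf.prime⟩

theorem general (f : ℕ → ℕ) (c u v w : ℤ) (C W : ℕ) (ε : ℝ) (hf : Moderate f c) (hc : c ≠ 0) (hu : u ≠ 0) (hε : 0 < ε) :
    AlmostAll (fun m => (m : ℝ) / Real.log m ^ C ≤ ((u * m + v * f m + w : ℤ) : ℝ) → Even (u * m + v * f m + w) →
      Formula ε W ((u * m + v * f m + w) / 2).toNat) := by
  classical
  rw [almostAll_iff]
  intro δ hδ
  obtain ⟨h, C₁, x₀, hh, hfam⟩ := Pool.Agent.Helper85.AE.family (mod_of hf) hc u v w hu C (δ / 4) (by positivity)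
  obtain ⟨n₀, hn₀⟩ := formula_of ε hε W
  obtain ⟨P, hP⟩ : ∃ P : ℕ → Prop, ∀ n, P n ↔ Formula ε W (n / 2) := ⟨_, fun _ => Iff.rfl⟩
  obtain ⟨N₀, htr⟩ := Pool.Agent.TH935.GF.transfer h 1 (C₁ + C₁ + 2 * h + 1) 1 P (by
    intro B C U
    refine Pool.Agent.TH935.GF.fam_win h B C (W + 2) U (2 * n₀) hh (ε / 2) (by positivity) P ?_
    intro m hm h2 hw
    obtain ⟨k, hk⟩ := h2
    rw [hP, hk, Nat.mul_div_cancel_left _ (by norm_num)]
    rw [hk] at hw
    exact hn₀ k (by omega) hw)
  obtain ⟨n1, hn1⟩ := Pool.Agent.Helper85.AE.ev_log (4 + 4 / δ)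
  obtain ⟨n2, hn2⟩ := exists_nat_gt (8 / δ)
  refine ⟨x₀ + N₀ + n1 + n2 + 3, fun x hx => ?_⟩
  obtain ⟨S, hSx, ⟨E, hE, hSE⟩, hSb, hSen⟩ := hfam x (by omega)
  have hx3 : (3 : ℝ) ≤ x := by exact_mod_cast (by omega : 3 ≤ x)
  have hx0 : (0 : ℝ) < x := by linarith
  obtain ⟨L, hL⟩ : ∃ L, L = Real.log x := ⟨_, rfl⟩
  have hL1 : 4 + 4 / δ ≤ L := by rw [hL]; exact hn1 x (by omega)
  have hδ4 : 0 < 4 / δ := by positivity
  have hL4 : 4 ≤ L := by linarith
  have hLδ : 4 ≤ δ * L := by
    have : 4 / δ ≤ L := by linarith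
    rwa [div_le_iff₀ hδ, mul_comm] at this
  rw [← hL] at hSE hSb hSen
  -- the bad members
  obtain ⟨Bad, hBad⟩ : ∃ Bad : Finset ℕ, Bad = (Icc 1 x).filter (fun m : ℕ => ¬ ((m : ℝ) / Real.log m ^ C ≤
    ((u * m + v * f m + w : ℤ) : ℝ) → Even (u * m + v * f m + w) → Formula ε W ((u * m + v * f m + w) / 2).toNat)) := ⟨_, rfl⟩
  suffices hsuf : (Bad.card : ℝ) ≤ δ * x by
    rw [hBad] at hsuf
    convert hsuf
  have hBm : ∀ m ∈ Bad, m ∈ Icc 1 x ∧ (m : ℝ) / Real.log m ^ C ≤ ((u * m + v * f m + w : ℤ) : ℝ) ∧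
      Even (u * m + v * f m + w) ∧ ¬ Formula ε W ((u * m + v * f m + w) / 2).toNat := by
    intro m hm
    rw [hBad, mem_filter] at hm
    obtain ⟨h1, h2⟩ := hm
    push Not at h2
    exact ⟨h1, h2⟩
  -- members of S
  obtain ⟨T, hT⟩ : ∃ T : Finset {n // n ∈ S}, T = univ.filter (fun n => n.1 ∈ Bad ∧ 1 < n.1) := ⟨_, rfl⟩
  have hsub : Bad ⊆ E ∪ ({1} ∪ T.map (Function.Embedding.subtype _)) := by
    intro m hm
    obtain ⟨h1, h2, h3, h4⟩ := hBm m hm
    rw [mem_union, mem_union, mem_singleton, Finset.mem_map]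
    by_cases hm1 : m = 1
    · right; left; exact hm1
    · have hm2 : 1 < m := by
        have := (mem_Icc.1 h1).1
        omega
      have hlogm : 0 < Real.log m := Real.log_pos (by exact_mod_cast hm2)
      by_cases hmS : m ∈ S
      · right; right
        exact ⟨⟨m, hmS⟩, by rw [hT, mem_filter]; exact ⟨mem_univ _, hm, hm2⟩, rfl⟩
      · left
        apply hSE m h1 hmS
        have h5 : (m : ℝ) / L ^ C ≤ (m : ℝ) / Real.log m ^ C := by
          apply div_le_div_of_nonneg_left (Nat.cast_nonneg _) (by positivity)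
          apply pow_le_pow_left₀ hlogm.le
          rw [hL]
          apply Real.log_le_log (by exact_mod_cast (by omega : 0 < m))
          exact_mod_cast (mem_Icc.1 h1).2
        exact (h5.trans h2).trans (le_abs_self _)
  have hcard : (Bad.card : ℝ) ≤ E.card + (1 + T.card) := by
    have h1 := (card_le_card hsub).trans ((card_union_le _ _).trans (add_le_add le_rfl (card_union_le _ _)))
    rw [card_singleton, card_map] at h1
    exact_mod_cast h1
  have h8 : 1 ≤ δ / 8 * x := by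
    have : 8 / δ ≤ x := hn2.le.trans (by exact_mod_cast (by omega : n2 ≤ x))
    rw [div_le_iff₀ hδ] at this
    linarith
  -- the family
  have hfc : Fintype.card {n // n ∈ S} = S.card := Fintype.card_coe _
  have hSc : (S.card : ℝ) ≤ x := by
    have := card_le_card hSx
    rw [Nat.card_Icc, Nat.add_sub_cancel] at this
    exact_mod_cast this
  have hTS : (T.card : ℝ) ≤ S.card := by
    have : T.card ≤ Fintype.card {n // n ∈ S} := card_le_univ _
    rw [hfc] at this
    exact_mod_cast this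
  have hTle : (T.card : ℝ) ≤ δ / 4 * x := by
    rcases le_or_gt (S.card : ℝ) (δ / 4 * x) with hsm | hbig
    · exact hTS.trans hsm
    obtain ⟨N, hN⟩ : ∃ N : ℕ, N = x * ⌈L ^ C₁⌉₊ := ⟨_, rfl⟩
    have hc1 : L ^ C₁ ≤ ⌈L ^ C₁⌉₊ := Nat.le_ceil _
    have hLC1 : 1 ≤ L ^ C₁ := one_le_pow₀ (by linarith)
    have hc2 : (⌈L ^ C₁⌉₊ : ℝ) ≤ L ^ (C₁ + 1) := by
      have h1 : (⌈L ^ C₁⌉₊ : ℝ) < L ^ C₁ + 1 := Nat.ceil_lt_add_one (by positivity)
      have h2 : L ^ (C₁ + 1) = L * L ^ C₁ := by ring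
      rw [h2]
      nlinarith
    have hc3 : 1 ≤ ⌈L ^ C₁⌉₊ := by
      have : (1 : ℝ) ≤ ⌈L ^ C₁⌉₊ := hLC1.trans hc1
      exact_mod_cast this
    have hxN : x ≤ N := by rw [hN]; exact Nat.le_mul_of_pos_right x hc3
    have hNr : (N : ℝ) = x * ⌈L ^ C₁⌉₊ := by rw [hN]; push_cast; ring
    have hLN : L ≤ Real.log N := by
      rw [hL]
      exact Real.log_le_log hx0 (by exact_mod_cast hxN)
    have key := htr N (by omega) {n // n ∈ S} (fun n => u * (n.1 : ℤ) + v * f n.1 + w) (by
      intro n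
      have h1 := hSb n.1 n.2
      have h2 : ((u * (n.1 : ℤ) + v * f n.1 + w : ℤ) : ℝ) ≤ N := by
        refine (le_abs_self _).trans (h1.trans ?_)
        rw [hNr]
        exact mul_le_mul_of_nonneg_left hc1 hx0.le
      rw [Nat.cast_one, one_mul]
      exact_mod_cast h2) (by
      rw [hfc, hNr]
      have h1 : (Pool.Agent.TH935.GF.En h (fun n : {n // n ∈ S} => u * (n.1 : ℤ) + v * f n.1 + w) : ℝ) *
          (x * ⌈L ^ C₁⌉₊) ≤ L ^ C₁ * (x : ℝ) ^ (2 * h) * L ^ (C₁ + 1) := by
        rw [← mul_assoc]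
        exact mul_le_mul hSen hc2 (by positivity) (by positivity)
      refine h1.trans ?_
      have h2 : (x : ℝ) ≤ L * S.card := by
        have h3 : x ≤ (δ * L) * x / 4 := by nlinarith
        have h4 : L * (δ / 4 * x) ≤ L * S.card := mul_le_mul_of_nonneg_left hbig.le (by linarith)
        linarith
      calc L ^ C₁ * (x : ℝ) ^ (2 * h) * L ^ (C₁ + 1) ≤ L ^ C₁ * (L * S.card) ^ (2 * h) * L ^ (C₁ + 1) := by gcongr
        _ = L ^ (C₁ + C₁ + 2 * h + 1) * (S.card : ℝ) ^ (2 * h) := by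
            rw [mul_pow]
            ring
        _ ≤ Real.log ((x * ⌈L ^ C₁⌉₊ : ℕ) : ℝ) ^ (C₁ + C₁ + 2 * h + 1) * (S.card : ℝ) ^ (2 * h) := by
            rw [← hN]
            gcongr
        _ = _ := by push_cast; rfl) T (by
      intro n hn
      rw [hT, mem_filter] at hn
      obtain ⟨-, hnB, hn1⟩ := hn
      obtain ⟨a1, a2, a3, a4⟩ := hBm n.1 hnB
      have hpos : (0 : ℝ) < ((u * (n.1 : ℤ) + v * f n.1 + w : ℤ) : ℝ) := by
        refine lt_of_lt_of_le ?_ a2
        have h1 : (1 : ℝ) < (n.1 : ℝ) := by exact_mod_cast hn1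
        have h2 := Real.log_pos h1
        positivity
      have hpos' : 0 < u * (n.1 : ℤ) + v * f n.1 + w := by exact_mod_cast hpos
      refine ⟨hpos', a3, ?_⟩
      rw [hP]
      intro h5
      apply a4
      have e : ((u * (n.1 : ℤ) + v * f n.1 + w) / 2).toNat = (u * (n.1 : ℤ) + v * f n.1 + w).toNat / 2 := by omega
      rw [e]
      exact h5)
    rw [hfc, pow_one] at key
    refine key.trans ?_
    have hlogN : 0 < Real.log N := by linarith
    rw [div_le_iff₀ hlogN]
    calc (S.card : ℝ) ≤ x := hSc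
      _ ≤ δ / 4 * x * L := by
          have h3 : x * 4 ≤ x * (δ * L) := mul_le_mul_of_nonneg_left hLδ hx0.le
          linarith
      _ ≤ δ / 4 * x * Real.log N := mul_le_mul_of_nonneg_left hLN (by positivity)
  have h9 : 0 < δ * x := by positivity
  linarith

theorem moderate_totient : Moderate Nat.totient (-1) :=
  ⟨Pool.Agent.Helper85.AE.mod_totient.mul, Pool.Agent.Helper85.AE.mod_totient.pos,
    Pool.Agent.Helper85.AE.mod_totient.growth, Pool.Agent.Helper85.AE.mod_totient.prime⟩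

theorem moderate_sigma : Moderate (fun m => ∑ d ∈ m.divisors, d) 1 :=
  ⟨Pool.Agent.Helper85.AE.mod_sigma.mul, Pool.Agent.Helper85.AE.mod_sigma.pos,
    Pool.Agent.Helper85.AE.mod_sigma.growth, Pool.Agent.Helper85.AE.mod_sigma.prime⟩

theorem card_mono' {N : ℕ} {P Q : ℕ → Prop} {dP : DecidablePred P} {dQ : DecidablePred Q} (h : ∀ m, P m → Q m) :
    (@Finset.filter _ P dP (Icc 1 N)).card ≤ (@Finset.filter _ Q dQ (Icc 1 N)).card :=
  card_le_card (fun m hm => Finset.mem_filter.2 ⟨(Finset.mem_filter.1 hm).1, h m (Finset.mem_filter.1 hm).2⟩)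

/-- the sum of the divisors is even for almost all integers -/
theorem sigma_even : AlmostAll (fun m => 2 ∣ ∑ d ∈ m.divisors, d) := by
  classical
  rw [almostAll_iff]
  intro ε hε
  obtain ⟨τ, hτ0, -, x₀, h⟩ := Pool.Agent.Helper85.AE.two_primes ε hε
  obtain ⟨n1, hn1⟩ := Pool.Agent.Helper85.AE.ev_pow τ hτ0 0 2
  refine ⟨x₀ + n1, fun x hx => ?_⟩
  have h2 : 2 ≤ ⌊(x : ℝ) ^ τ⌋₊ := by
    apply Nat.le_floor
    have := hn1 x (by omega)
    rw [pow_zero, mul_one] at this
    exact_mod_cast this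
  exact le_trans (Nat.cast_le.2 (card_mono' (fun m hm h3 => hm (Pool.Agent.Helper85.AE.sigma_even h2 h3)))) (h x (by omega))

theorem both (ε : ℝ) (hε : 0 < ε) (W : ℕ) :
    AlmostAll (fun m => Even m → Even (aliquot m) ∧ Even (m - Nat.totient m) ∧ m ≤ 2 * aliquot m ∧
      m ≤ 2 * (m - Nat.totient m) ∧ Formula ε W (aliquot m / 2) ∧ Formula ε W ((m - Nat.totient m) / 2)) := by
  have h1 := general (fun m => ∑ d ∈ m.divisors, d) 1 (-1) 1 0 1 W ε moderate_sigma (by norm_num) (by norm_num) hε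
  have h2 := general Nat.totient (-1) 1 (-1) 0 1 W ε moderate_totient (by norm_num) (by norm_num) hε
  refine almostAll_and h1 (almostAll_and h2 sigma_even 0 (R := fun m => ((m : ℝ) / Real.log m ^ 1 ≤
      ((1 * m + -1 * Nat.totient m + 0 : ℤ) : ℝ) → Even (1 * (m : ℤ) + -1 * Nat.totient m + 0) →
      Formula ε W ((1 * (m : ℤ) + -1 * Nat.totient m + 0) / 2).toNat) ∧
      2 ∣ ∑ d ∈ m.divisors, d) (fun m _ a b => ⟨a, b⟩)) 8 ?_
  rintro m hm g1 ⟨g2, g3⟩ he
  obtain ⟨t, ht⟩ := he
  have ht' : m = 2 * t := by omega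
  have hlm : 2 ≤ Real.log (m : ℝ) := log_ge_two hm
  have hm0 : (0 : ℝ) < m := by exact_mod_cast (by omega : 0 < m)
  have hdiv : (m : ℝ) / Real.log m ^ 1 ≤ m / 2 := by
    rw [pow_one]
    exact div_le_div_of_nonneg_left hm0.le (by norm_num) hlm
  have htr : (m : ℝ) = 2 * t := by exact_mod_cast ht'
  have ht1 : 1 ≤ t := by omega
  -- the totient
  have htot : Nat.totient m ≤ t := by rw [ht']; exact Pool.Agent.Helper85.AE.totient_two_mul_le t
  have htote : Even (Nat.totient m) := Nat.totient_even (by omega)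
  have hsig : 3 * t ≤ ∑ d ∈ m.divisors, d := by rw [ht']; exact Pool.Agent.Helper85.AE.sigma_ge t ht1
  have hal : aliquot m + m = ∑ d ∈ m.divisors, d := (Nat.sum_divisors_eq_sum_properDivisors_add_self).symm
  have e1 : ((-1) * (m : ℤ) + 1 * ((∑ d ∈ m.divisors, d : ℕ) : ℤ) + 0) = (aliquot m : ℤ) := by
    rw [← hal]
    push_cast
    ring
  have e3 : Even (aliquot m) := by
    rw [even_iff_two_dvd]
    have h4 : 2 ∣ aliquot m + m := by rw [hal]; exact g3
    exact (Nat.dvd_add_left ⟨t, ht'⟩).1 h4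
  have e4 : Even (m - Nat.totient m) := by
    rw [Nat.even_sub (by omega)]
    exact ⟨fun _ => htote, fun _ => ⟨t, ht⟩⟩
  have e5 : (1 * (m : ℤ) + -1 * (Nat.totient m : ℤ) + 0) = ((m - Nat.totient m : ℕ) : ℤ) := by
    rw [Nat.cast_sub (by omega)]
    ring
  refine ⟨e3, e4, by omega, by omega, ?_, ?_⟩
  · have h5 := g1 (by
      rw [e1]
      refine hdiv.trans ?_
      push_cast
      have : t ≤ aliquot m := by omega
      have : (t : ℝ) ≤ aliquot m := by exact_mod_cast this
      linarith) (by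
      rw [e1]
      exact_mod_cast e3)
    rw [e1] at h5
    have e6 : ((aliquot m : ℤ) / 2).toNat = aliquot m / 2 := by omega
    rwa [e6] at h5
  · have h5 := g2 (by
      rw [e5]
      refine hdiv.trans ?_
      push_cast
      have h4 : t ≤ m - Nat.totient m := by omega
      have h6 : (t : ℝ) ≤ ((m - Nat.totient m : ℕ) : ℝ) := by exact_mod_cast h4
      linarith) (by
      rw [e5]
      exact_mod_cast e4)
    rw [e5] at h5
    have e6 : (((m - Nat.totient m : ℕ) : ℤ) / 2).toNat = (m - Nat.totient m) / 2 := by omega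
    rwa [e6] at h5

theorem sum_of {n : ℕ} (hn : 4 ≤ n) (he : Even n) (h : Formula (1 / 2) 0 (n / 2)) : SumOfTwo n := by
  obtain ⟨t, ht⟩ := he
  have e : n / 2 = t := by omega
  rw [e] at h
  have h1 := (abs_le.1 h.1).1
  have h2 : 0 < pred t t := by
    unfold pred
    have h3 := Pool.Agent.W93.GB.one_le_sing (2 * t)
    have h4 : (0 : ℝ) < t := by exact_mod_cast (by omega : 0 < t)
    have h5 : 0 < Real.log ((2 * t : ℕ) : ℝ) := Real.log_pos (by exact_mod_cast (by omega : 1 < 2 * t))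
    positivity
  have h6 : (0 : ℝ) < g t := by linarith
  have h7 : 0 < g t := by exact_mod_cast h6
  unfold g at h7
  obtain ⟨p, hp⟩ := card_pos.1 h7
  unfold M at hp
  rw [mem_filter] at hp
  obtain ⟨-, a1, a2, a3, a4, a5⟩ := hp
  exact ⟨p.1, p.2, a1, a2, by omega, by omega⟩

/-- **Goldbach's conjecture for almost all aliquot sums and cototients.** (1) Let `f` be a positive multiplicative function
of moderate growth with `f p = p + c`, `c ≠ 0`, for all large primes `p`, let `u ≠ 0`, `v`, `w` be integers, and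
`F(m) = u m + v f(m) + w`. For almost all `m` for which `F(m)` is even and at least `m / (log m)^C` the formula of Hardy and
Littlewood holds for the number of the representations of `F(m)` as a sum of two distinct primes, also in windows. (2) Euler's
function and the sum of the divisors are such functions. (3) For almost all `m`, if `m` is even, then the sum `s(m)` of the
proper divisors and `m - φ(m)` are even and at least `m / 2`, and the formula holds for both. (4) For almost all `m`, if `m`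
is even, then `s(m)` and `m - φ(m)` are sums of two distinct primes. -/
theorem result :
    (∀ (f : ℕ → ℕ) (c u v w : ℤ) (C W : ℕ) (ε : ℝ), Moderate f c → c ≠ 0 → u ≠ 0 → 0 < ε →
      AlmostAll (fun m => (m : ℝ) / Real.log m ^ C ≤ ((u * m + v * f m + w : ℤ) : ℝ) → Even (u * m + v * f m + w) →
        Formula ε W ((u * m + v * f m + w) / 2).toNat)) ∧
    (Moderate Nat.totient (-1) ∧ Moderate (fun m => ∑ d ∈ m.divisors, d) 1) ∧
    (∀ ε : ℝ, 0 < ε → ∀ W : ℕ, AlmostAll (fun m => Even m → Even (aliquot m) ∧ Even (m - Nat.totient m) ∧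
      m ≤ 2 * aliquot m ∧ m ≤ 2 * (m - Nat.totient m) ∧
      Formula ε W (aliquot m / 2) ∧ Formula ε W ((m - Nat.totient m) / 2))) ∧
    AlmostAll (fun m => Even m → SumOfTwo (aliquot m) ∧ SumOfTwo (m - Nat.totient m)) := by
  refine ⟨general, ⟨moderate_totient, moderate_sigma⟩, fun ε hε W => both ε hε W, ?_⟩
  have h := both (1 / 2) (by norm_num) 0
  refine almostAll_and h h 8 (fun m hm h1 _ he => ?_)
  obtain ⟨a1, a2, a3, a4, a5, a6⟩ := h1 he
  exact ⟨sum_of (by omega) a1 a5, sum_of (by omega) a2 a6⟩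

end Pool.Agent.Results.MP_7b7e48_nt.AliquotSums
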