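import Pool.Agent.Helper86.GB.K3

/-!
# Simultaneous Goldbach representations with a common prime, in all progressions and all intervals at once

For all `k ≥ 1` and `ε > 0` there are `D` and `δ, c > 0` such that for all `B` and `κ > 0` and EVERY large scale `N`
there are a modulus `r ≥ (log N) ^ B`, a character `χ` modulo `r` with `χ ^ 2 = 1` and a number
`0 ≤ y ≤ 1 - N ^ (-κ)`, where either `y = 0` or `χ` is primitive and nontrivial and `y = N ^ (β - 1)` for a real zero `β`
of `L(s, χ)`, such that all vectors `(n 1, …, n k)` of positive integers `n i ≤ N`, with the exception of at most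
`N ^ (k - δ)` of them, have the following property. For ALL moduli `q ≤ N ^ δ`, ALL residue classes `b` modulo `q` for
which there is no local obstruction, and ALL intervals `[u, v)` of length at least `N ^ (1 - δ)` with `1 ≤ u` and
`v ≤ n i` for all `i`, the number of the primes `p ≡ b` modulo `q` with `u ≤ p < v` for which
`2 n 1 - p, …, 2 n k - p` are all prime (so that `2 n i = p + p i` with primes `p < n i < p i`) is

* `T S (v - u) / (q (log N) ^ (k + 1))` up to the relative error `ε`, where `T` is the mean of the products of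
  `1 - y χ (q x + b)` and the `1 - y χ (2 n i - (q x + b))` over the residues `x` modulo `r` for which `q x + b` and all
  the `2 n i - (q x + b)` are prime to `r`, and
* `S (v - u) / (q (log N) ^ (k + 1))` up to the relative error `ε`, if `r` does not divide
  `D q ^ ((k + 1) ^ 2) ∏ n i ^ 2 ∏ (n i - n j)`,

where `S ≥ c` is the singular series of the problem. One has `(1 - y) ^ (k + 1) ≤ T ≤ 2 ^ (k + 1)`. For `k = 1`, `q = 1`
and the interval `[1, n)` this contains the theorem of Montgomery and Vaughan on the exceptional set in Goldbach's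
problem.
-/

set_option autoImplicit false

namespace Pool.Agent.Results.MP_7b7e48_nt.CommonPrime

open Finset

/-- The number of the residue classes `x` modulo `p` for which `p` divides `q x + b` or one of the
`2 n i - (q x + b)`. -/
def nu {k : ℕ} (n : Fin k → ℕ) (q b p : ℕ) : ℕ :=
  ((range p).filter (fun x : ℕ => (p : ℤ) ∣ (q : ℤ) * x + b ∨ ∃ i, (p : ℤ) ∣ 2 * n i - (q * x + b))).card

/-- There is no local obstruction: no prime number divides `(q x + b) ∏ (2 n i - (q x + b))` for all integers `x`. -/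
def Admissible {k : ℕ} (n : Fin k → ℕ) (q b : ℕ) : Prop := ∀ p : ℕ, p.Prime → nu n q b p < p

/-- `S` is the singular series of the problem. -/
def IsSingularSeries {k : ℕ} (n : Fin k → ℕ) (q b : ℕ) (S : ℝ) : Prop :=
  HasProd (fun p : Nat.Primes => (1 - (nu n q b p : ℝ) / (p : ℕ)) * ((1 - 1 / ((p : ℕ) : ℝ))⁻¹) ^ (k + 1)) S

/-- The product of the `n i ^ 2` and of the `n i - n j` over the ordered pairs of different indices. -/
def disc {k : ℕ} (n : Fin k → ℕ) : ℤ := ∏ i, ((n i : ℤ) ^ 2 * ∏ j ∈ univ.erase i, ((n i : ℤ) - n j))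

/-- The number of the primes `p ≡ b` modulo `q` with `u ≤ p < v` for which all the `2 n i - p` are prime. -/
def representations {k : ℕ} (n : Fin k → ℕ) (q b u v : ℕ) : ℕ :=
  ((Ico u v).filter (fun p => p.Prime ∧ (∀ i, (2 * n i - p).Prime) ∧ p ≡ b [MOD q])).card

/-- The residues `x` modulo `r` for which `q x + b` and all the `2 n i - (q x + b)` are prime to `r`. -/
def unitResidues {k : ℕ} (r : ℕ) (n : Fin k → ℕ) (q b : ℕ) : Finset ℕ :=
  (range r).filter (fun x : ℕ => Int.gcd ((q : ℤ) * x + b) r = 1 ∧ ∀ i, Int.gcd (2 * n i - (q * x + b)) r = 1)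

/-- The mean over these residues of the products of `1 - y χ (q x + b)` and the `1 - y χ (2 n i - (q x + b))`. -/
noncomputable def twist {k r : ℕ} (χ : DirichletCharacter ℂ r) (y : ℝ) (n : Fin k → ℕ) (q b : ℕ) : ℝ :=
  (∑ x ∈ unitResidues r n q b, (1 - y * (χ (((q : ℤ) * x + b : ℤ) : ZMod r)).re) *
    ∏ i, (1 - y * (χ ((2 * n i - (q * x + b) : ℤ) : ZMod r)).re)) / (unitResidues r n q b).card

/-- The asymptotic formula for the number of the representations of `2 n 1, …, 2 n k` with a common prime, for all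
progressions to moduli at most `N ^ δ` and all intervals of length at least `N ^ (1 - δ)`. -/
def Good {k r : ℕ} (ε δ c : ℝ) (D N : ℕ) (χ : DirichletCharacter ℂ r) (y : ℝ) (n : Fin k → ℕ) : Prop :=
  ∀ q b : ℕ, 1 ≤ q → (q : ℝ) ≤ (N : ℝ) ^ δ → b < q → Admissible n q b →
    (1 - y) ^ (k + 1) ≤ twist χ y n q b ∧ twist χ y n q b ≤ 2 ^ (k + 1) ∧
    ∃ S : ℝ, IsSingularSeries n q b S ∧ c ≤ S ∧
      ∀ u v : ℕ, 1 ≤ u → (∀ i, v ≤ n i) → (N : ℝ) ^ (1 - δ) ≤ (v : ℝ) - u →
        |(representations n q b u v : ℝ) - twist χ y n q b * S * (((v : ℝ) - u) / q / Real.log N ^ (k + 1))| ≤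
            ε * (twist χ y n q b * S * (((v : ℝ) - u) / q / Real.log N ^ (k + 1))) ∧
        (¬ (r : ℤ) ∣ D * (q ^ ((k + 1) ^ 2) * disc n) →
          |(representations n q b u v : ℝ) - S * (((v : ℝ) - u) / q / Real.log N ^ (k + 1))| ≤
            ε * (S * (((v : ℝ) - u) / q / Real.log N ^ (k + 1))))

open Classical in
/-- Almost all vectors of even numbers are simultaneously sums of two primes with a common prime, at every scale, in
all progressions and all intervals, with an asymptotic formula for the number of the representations. -/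
theorem result : ∀ k : ℕ, 1 ≤ k → ∀ ε : ℝ, 0 < ε → ∃ D : ℕ, 0 < D ∧ ∃ δ : ℝ, 0 < δ ∧ ∃ c : ℝ, 0 < c ∧
    ∀ B : ℕ, ∀ κ : ℝ, 0 < κ → ∃ N₀ : ℕ, ∀ N : ℕ, N₀ ≤ N →
    ∃ r : ℕ, ∃ _ : NeZero r, Real.log N ^ B ≤ r ∧ ∃ χ : DirichletCharacter ℂ r, χ ^ 2 = 1 ∧
    ∃ y : ℝ, 0 ≤ y ∧ y ≤ 1 - (N : ℝ) ^ (-κ) ∧
      (y = 0 ∨ (χ.IsPrimitive ∧ χ ≠ 1 ∧ ∃ β : ℝ, y = (N : ℝ) ^ (β - 1) ∧ χ.LFunction β = 0)) ∧
      (((Fintype.piFinset (fun _ : Fin k => Icc 1 N)).filter (fun n => ¬ Good ε δ c D N χ y n)).card : ℝ) ≤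
        (N : ℝ) ^ ((k : ℝ) - δ) := by
  intro k hk ε hε
  obtain ⟨D, hD, δ, hδ, c, hc, hm⟩ := Pool.Agent.Helper86.GB.goldKA k hε
  refine ⟨D, hD, δ, hδ, c, hc, fun B κ hκ => ?_⟩
  obtain ⟨N₀, hN₀⟩ := hm B κ hκ
  refine ⟨N₀, fun N hN => ?_⟩
  obtain ⟨j, hr, hj2, y, hy0, hyκ, hyβ, T, hT, hP⟩ := hN₀ N hN
  refine ⟨j.1 + 1, inferInstance, hr, j.2, hj2, y, hy0, hyκ, hyβ, le_trans ?_ hT⟩
  have : ((Fintype.piFinset (fun _ : Fin k => Icc 1 N)).filter (fun n => ¬ Good ε δ c D N j.2 y n)).card ≤ T.card := by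
    apply card_le_card
    intro n hn
    rw [mem_filter, Fintype.mem_piFinset] at hn
    by_contra hnT
    apply hn.2
    have hnN : ∀ i, n i ≤ N := fun i => (mem_Icc.1 (hn.1 i)).2
    intro q b hq hqN hb hadm
    obtain ⟨hT1, hT2, S, hS, hcS, h⟩ := hP n hnN hnT q b hq hqN hb.le hadm
    exact ⟨hT1, hT2, S, hS, hcS, fun u v hu hv hW => h u v hu ((hv ⟨0, hk⟩).trans (hnN _)) hv hW⟩
  exact_mod_cast this

end Pool.Agent.Results.MP_7b7e48_nt.CommonPrime
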