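import Pool.Agent.Helper85.RP.Near
import Pool.Agent.Results.MP_7b7e48_nt.AliquotSums

/-!
# Goldbach's conjecture near almost all values of real polynomials in several variables

Let `F` be a polynomial in `n` variables with real coefficients, of total degree `d ≥ 1`. For all the integer points `x` of
the box `|x_i| ≤ N` with at most `N^n / (log N)^U` exceptions, ALL the even positive integers at a distance of at most
`(log N)^T` from `F(x)` have the number of representations as sums of two primes predicted by Hardy and Littlewood, also if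
the smaller prime is restricted to an arbitrary window of a length of at least `m / (log m)^W`. The result is uniform in all the coefficients of the lower degrees: only the homogeneous part of the degree
`d` is fixed. No Diophantine condition is imposed on the coefficients.

Proof. For a direction `v` in which the highest homogeneous part does not vanish the restrictions of `F` to the lines
`y + t v` are polynomials of degree `d` with the same highest coefficient. By Weyl's method, the number of the frequencies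
`s / (B X^d)`, `0 ≤ s < X^d`, with an exponential sum of at least `X / u` is bounded by a power of `u`, uniformly in the
lower coefficients (`Helper85/RP/Phase`). With a kernel of Fejér and the inequality of Hölder this gives the nearly optimal
bound for the additive energy of the family of the integer parts of the values on the box (`energy_box` in
`Helper85/RP/Slice`). The theorem on Goldbach representations for families of small energy (`TH935/GF`, starting files)
completes the proof.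
-/

set_option autoImplicit false

namespace Pool.Agent.Results.MP_7b7e48_nt.RealPolynomials

open Finset
open Pool.Agent.H560R3.GB (sing)

/-- the set `M_n` of the pairs `(p, p')` of primes with `p + p' = 2 n` and `p > n > p'` -/
def M (n : ℕ) : Finset (ℕ × ℕ) :=
  (range (2 * n + 1) ×ˢ range (2 * n + 1)).filter
    (fun x => x.1.Prime ∧ x.2.Prime ∧ x.1 + x.2 = 2 * n ∧ n < x.1 ∧ x.2 < n)

/-- `g(n)`, the number of the elements of `M_n` -/
def g (n : ℕ) : ℕ := (M n).card

/-- the number of the elements `(p, p')` of `M_n` with `y₁ < p' ≤ y₂` -/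
def gw (n y₁ y₂ : ℕ) : ℕ := ((M n).filter (fun x => y₁ < x.2 ∧ x.2 ≤ y₂)).card

/-- the prediction of Hardy and Littlewood for the number of the pairs in a window of the length `l` -/
noncomputable def pred (n : ℕ) (l : ℝ) : ℝ := sing (2 * n) * l / Real.log ((2 * n : ℕ) : ℝ) ^ 2

/-- (1) `g n` is `pred n n`, up to a relative error of at most `ε`; (2) in every window `(y₁, y₂]` with
`0 ≤ y₁ < y₂ < n` and `y₂ - y₁ ≥ n / (log n)^W` the number of the pairs is `pred n (y₂ - y₁)`, up to a relative error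
of at most `ε`. -/
def Formula (ε : ℝ) (W n : ℕ) : Prop :=
  |(g n : ℝ) - pred n n| ≤ ε * pred n n ∧
  ∀ y₁ y₂ : ℕ, y₁ < y₂ → y₂ < n → (n : ℝ) / Real.log n ^ W ≤ (y₂ : ℝ) - y₁ →
    |(gw n y₁ y₂ : ℝ) - pred n ((y₂ : ℝ) - y₁)| ≤ ε * pred n ((y₂ : ℝ) - y₁)

/-- the integer points `x` with `|x_i| ≤ N` -/
def box (n N : ℕ) : Set (Fin n → ℤ) := {x | ∀ i, |x i| ≤ N}

/-- the value of a real polynomial at an integer point -/
noncomputable def val {n : ℕ} (F : MvPolynomial (Fin n) ℝ) (x : Fin n → ℤ) : ℝ :=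
  MvPolynomial.eval (fun i => (x i : ℝ)) F

/-- all the even numbers `2 m > 0` at a distance of at most `R` from `y` have the predicted numbers of Goldbach
representations -/
def Near (ε : ℝ) (W : ℕ) (R y : ℝ) : Prop := ∀ m : ℕ, 0 < m → |2 * (m : ℝ) - y| ≤ R → Formula ε W m

/-- the number of the points of the box without this property -/
noncomputable def exceptions {n : ℕ} (ε : ℝ) (W : ℕ) (R : ℝ) (F : MvPolynomial (Fin n) ℝ) (N : ℕ) : ℕ :=
  Nat.card {x : Fin n → ℤ // x ∈ box n N ∧ ¬ Near ε W R (val F x)}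

open Pool.Agent.Results.MP_7b7e48_nt.AliquotSums (formula_of)
open Pool.Agent.TH935.GF (En)

/-- families of small energy -/
theorem gold (h C U W : ℕ) (hh : 1 ≤ h) (ε : ℝ) (hε : 0 < ε) : ∃ N₀ : ℕ, ∀ Q : ℕ, N₀ ≤ Q →
    ∀ (ι : Type) [Fintype ι] (v : ι → ℤ), (∀ i, |v i| ≤ Q) →
    (En h v : ℝ) * Q ≤ Real.log Q ^ C * (Fintype.card ι : ℝ) ^ (2 * h) →
    ∀ S : Finset ι, (∀ i ∈ S, ∃ m : ℕ, 0 < m ∧ v i = 2 * m ∧ ¬ Formula ε W m) →
    (S.card : ℝ) ≤ Fintype.card ι / Real.log Q ^ U := by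
  obtain ⟨n₀, hn₀⟩ := formula_of ε hε W
  obtain ⟨P, hP⟩ : ∃ P : ℕ → Prop, ∀ n, P n ↔ AliquotSums.Formula ε W (n / 2) := ⟨_, fun _ => Iff.rfl⟩
  obtain ⟨N₀, htr⟩ := Pool.Agent.TH935.GF.transfer h 1 C U P (by
    intro B C U
    refine Pool.Agent.TH935.GF.fam_win h B C (W + 2) U (2 * n₀) hh (ε / 2) (by positivity) P ?_
    intro m hm h2 hw
    obtain ⟨k, hk⟩ := h2
    rw [hP, hk, Nat.mul_div_cancel_left _ (by norm_num)]
    rw [hk] at hw
    exact hn₀ k (by omega) hw)
  refine ⟨N₀, fun Q hQ ι _ v hv hE S hS => ?_⟩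
  refine htr Q hQ ι v (fun i => ?_) hE S (fun i hi => ?_)
  · rw [Nat.cast_one, one_mul]
    exact (le_abs_self _).trans (hv i)
  · obtain ⟨m, hm, hvm, hf⟩ := hS i hi
    rw [hvm]
    refine ⟨by omega, ⟨m, by ring⟩, ?_⟩
    rw [hP]
    have e : (2 * (m : ℤ)).toNat / 2 = m := by omega
    rw [e]
    exact hf

open Classical in
lemma exceptions_eq {n : ℕ} (ε : ℝ) (W : ℕ) (R : ℝ) (F : MvPolynomial (Fin n) ℝ) (N : ℕ) :
    exceptions ε W R F N = ((Pool.Agent.Helper85.RP.box n N).filter (fun x => ∃ b : ℤ, |(b : ℝ) - val F x| ≤ R ∧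
      ∃ m : ℕ, 0 < m ∧ b = 2 * m ∧ ¬ Formula ε W m)).card := by
  unfold exceptions
  rw [← Fintype.card_coe, ← Nat.card_eq_fintype_card]
  apply Nat.card_congr
  apply Equiv.subtypeEquivRight
  intro x
  rw [mem_filter, Pool.Agent.Helper85.RP.mem_box]
  apply and_congr Iff.rfl
  unfold Near
  push Not
  constructor
  · rintro ⟨m, hm, h1, h2⟩
    exact ⟨2 * m, by push_cast; exact h1, m, hm, rfl, h2⟩
  · rintro ⟨b, h1, m, hm, rfl, h2⟩
    exact ⟨m, hm, by push_cast at h1; exact h1, h2⟩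

theorem uniform (n d K T U W : ℕ) (hd : 1 ≤ d) (ε : ℝ) (hε : 0 < ε) (Φ : MvPolynomial (Fin n) ℝ) (hΦ : Φ.IsHomogeneous d)
    (hΦ0 : Φ ≠ 0) : ∃ N₀ : ℕ, ∀ N : ℕ, N₀ ≤ N → ∀ G : MvPolynomial (Fin n) ℝ, G.totalDegree < d →
      (∀ x ∈ box n N, |val (Φ + G) x| ≤ Real.log N ^ K * (N : ℝ) ^ d) →
      (exceptions ε W (Real.log N ^ T) (Φ + G) N : ℝ) ≤ (N : ℝ) ^ n / Real.log N ^ U := by
  classical
  obtain ⟨h, C, U', hh, N₁, h1⟩ := Pool.Agent.Helper85.RP.near n d (K + T + 1) T U hd Φ hΦ hΦ0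
  obtain ⟨N₂, h2⟩ := gold h C U' W hh ε hε
  obtain ⟨n1, hn1⟩ := Pool.Agent.Helper85.AE.ev_log 5
  refine ⟨N₁ + N₂ + n1 + 3, fun N hN G hG hb => ?_⟩
  have hN0 : (0 : ℝ) < N := by exact_mod_cast (by omega : 0 < N)
  have hN1 : (1 : ℝ) ≤ N := by exact_mod_cast (by omega : 1 ≤ N)
  have hL := hn1 N (by omega)
  obtain ⟨L, hLd⟩ : ∃ L, L = Real.log (N : ℝ) := ⟨_, rfl⟩
  rw [← hLd] at hL
  have hLK : 1 ≤ L ^ K := one_le_pow₀ (by linarith)
  have hLT : 1 ≤ L ^ T := one_le_pow₀ (by linarith)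
  have hNd : (N : ℝ) ≤ (N : ℝ) ^ d := by
    calc (N : ℝ) = (N : ℝ) ^ 1 := (pow_one _).symm
      _ ≤ _ := pow_le_pow_right₀ hN1 hd
  have hX : 1 ≤ L ^ K * L ^ T := one_le_mul_of_one_le_of_one_le hLK hLT
  have hL3 : L ^ (K + T + 1) = L ^ K * L ^ T * L := by ring
  have hkey : L ^ K * (N : ℝ) ^ d + L ^ T + 3 ≤ L ^ (K + T + 1) * (N : ℝ) ^ d := by
    have hNd1 : 1 ≤ (N : ℝ) ^ d := one_le_pow₀ hN1
    have e1 : L ^ K * (N : ℝ) ^ d ≤ L ^ K * L ^ T * (N : ℝ) ^ d := by
      apply mul_le_mul_of_nonneg_right _ (by positivity)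
      exact le_mul_of_one_le_right (by positivity) hLT
    have e2 : L ^ T ≤ L ^ K * L ^ T * (N : ℝ) ^ d := by
      calc L ^ T = 1 * L ^ T * 1 := by ring
        _ ≤ _ := mul_le_mul (mul_le_mul_of_nonneg_right hLK (by positivity)) hNd1 (by norm_num) (by positivity)
    have e3 : 1 ≤ L ^ K * L ^ T * (N : ℝ) ^ d := one_le_mul_of_one_le_of_one_le hX hNd1
    have e4 : L ^ K * L ^ T * (N : ℝ) ^ d * 5 ≤ L ^ (K + T + 1) * (N : ℝ) ^ d := by
      rw [hL3]
      have : 0 ≤ L ^ K * L ^ T * (N : ℝ) ^ d := by positivity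
      nlinarith
    linarith
  obtain ⟨Q, hQ⟩ : ∃ Q : ℕ, Q = ⌊L ^ (K + T + 1) * (N : ℝ) ^ d⌋₊ := ⟨_, rfl⟩
  have hQ1 : (Q : ℝ) ≤ L ^ (K + T + 1) * (N : ℝ) ^ d := by rw [hQ]; exact Nat.floor_le (by positivity)
  have hQ2 : L ^ (K + T + 1) * (N : ℝ) ^ d < Q + 1 := by rw [hQ]; exact Nat.lt_floor_add_one _
  have hNQ : N ≤ Q := by
    rw [hQ]
    apply Nat.le_floor
    refine hNd.trans ?_
    have : (N : ℝ) ^ d ≤ L ^ K * (N : ℝ) ^ d := le_mul_of_one_le_left (by positivity) hLK
    linarith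
  rw [hLd] at hQ1 hQ2 hkey
  have h3 := h1 N (by omega) G hG Q hNQ hQ1 (fun x hx => by
    have e1 := hb x (fun i => Pool.Agent.Helper85.RP.mem_box.1 hx i)
    unfold val at e1
    linarith) (fun b => ∃ m : ℕ, 0 < m ∧ b = 2 * m ∧ ¬ Formula ε W m) (h2 Q (by omega))
  rw [exceptions_eq]
  exact h3

/-- **Goldbach near almost all values of real polynomials, uniformly in the lower coefficients.** Let `Φ ≠ 0` be a real
form of degree `d ≥ 1` in `n` variables. For `N ≥ N₀` and all the real polynomials `G` of degree less than `d` with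
`|Φ + G| ≤ (log N)^K N^d` on the integer points of the box `|x_i| ≤ N`, all these points but at most `N^n / (log N)^U` have
the property that ALL the even numbers `2 m > 0` at a distance of at most `(log N)^T` from `(Φ + G)(x)` have the predicted
numbers of Goldbach representations, in all the windows of a length of at least `m / (log m)^W`. -/
theorem result (n d K T U W : ℕ) (hd : 1 ≤ d) (ε : ℝ) (hε : 0 < ε) (Φ : MvPolynomial (Fin n) ℝ)
    (hΦ : Φ.IsHomogeneous d) (hΦ0 : Φ ≠ 0) : ∃ N₀ : ℕ, ∀ N : ℕ, N₀ ≤ N →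
      ∀ G : MvPolynomial (Fin n) ℝ, G.totalDegree < d →
      (∀ x ∈ box n N, |val (Φ + G) x| ≤ Real.log N ^ K * (N : ℝ) ^ d) →
      (exceptions ε W (Real.log N ^ T) (Φ + G) N : ℝ) ≤ (N : ℝ) ^ n / Real.log N ^ U :=
  uniform n d K T U W hd ε hε Φ hΦ hΦ0

end Pool.Agent.Results.MP_7b7e48_nt.RealPolynomials
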