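import Pool.Agent.Helper86.SE.M2
import Pool.Agent.Helper86.SE.V

/-!
# Goldbach's problem for families of small additive energy at every scale, with the exceptional zero in the main term

The additive energy of order `t` of a finite family `f x`, `x ∈ X`, of integers is the number of the solutions of
`f x_1 + ⋯ + f x_t = f y_1 + ⋯ + f y_t` with `x_i, y_i ∈ X`. For a family of integers of size about `N` it is at least
about `|X| ^ (2 t) / N`. The result concerns all families whose energy of some order `t ≤ K` is minimal up to a small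
power of `N` (`SmallEnergy`).

For all `K` and `ε > 0` there are `D` and `δ, c > 0` such that for all `B` and `κ > 0` and EVERY large scale `N` there
are a modulus `r ≥ (log N) ^ B`, a character `χ` modulo `r` with `χ ^ 2 = 1` and a number `0 ≤ y ≤ 1 - N ^ (-κ)`, where
either `y = 0` or `χ` is primitive and nontrivial and `y = N ^ (β - 1)` for a real zero `β` of `L(s, χ)`, with the
following property. For all families `f x`, `x ∈ X`, with `|f x| ≤ N ^ (1 + δ)` and energy of order `t ≤ K` at most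
`N ^ (δ - 1) |X| ^ (2 t)`, all `x ∈ X`, with the exception of at most `N ^ (-δ) |X|` of them, have the property that
for ALL `n ≥ 1` with `|2 n - f x| ≤ N ^ δ` and ALL intervals `[u, v)` inside `[1, 2 n)` and `[1, 2 N)` of length at
least `N ^ (1 - δ)` the number of the primes `u ≤ p < v` for which `2 n - p` is prime is

* `T S (v - u) / (log N) ^ 2` up to the relative error `ε`, where `S ≥ c` is the singular series of Goldbach's problem
  for `2 n` and `T` is the mean of the `(1 - y χ (x)) (1 - y χ (2 n - x))` over the residues `x` modulo `r` for which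
  `x` and `2 n - x` are prime to `r`, and
* `S (v - u) / (log N) ^ 2` up to the relative error `ε`, if `r` does not divide `D n ^ 2`.

One has `(1 - y) ^ 2 ≤ T ≤ 4`. Consequently (second part) at every large scale for all `x ∈ X` with the exception
of at most `N ^ (-δ) |X|` of them, every even number `2 n` with `|2 n - f x| ≤ N ^ δ` and `N ^ (1 - δ) < n ≤ 2 N` is in
at least `N ^ (1 - δ - κ)` ways the sum of two distinct primes `p`, `2 n - p` with `n - N ^ (1 - δ) ≤ p < n`.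
At most scales `N` (third part) the second formula holds without a condition on `r`, for all these families.

The values of integer polynomials (fourth part: Hua's lemma, uniformly in the polynomial) and the integer parts of the
values of real polynomials in several variables (fifth part) are families of small additive energy.

Joint work of helper85 (the energy bounds for polynomials, `Pool.Agent.Helper85.HP` and `Pool.Agent.Helper85.RP`, the use
of Hölder's inequality and the method for most scales) and helper86 (the exceptional zero, general families).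
-/

set_option autoImplicit false

namespace Pool.Agent.Results.MP_7b7e48_nt.SmallEnergyFamilies

open Finset Polynomial

/-- The number of the residue classes `x` modulo the prime `p` for which `p` divides `x` or `2 n - x`. -/
def nu (n p : ℕ) : ℕ := if p ∣ 2 * n then 1 else 2

/-- `S` is the singular series of Goldbach's problem for the even number `2 n`. -/
def IsSingularSeries (n : ℕ) (S : ℝ) : Prop :=
  HasProd (fun p : Nat.Primes => (1 - (nu n p : ℝ) / (p : ℕ)) * ((1 - 1 / ((p : ℕ) : ℝ))⁻¹) ^ 2) S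

/-- The number of the primes `p` with `u ≤ p < v` for which `2 n - p` is prime. -/
def representations (n u v : ℕ) : ℕ := ((Ico u v).filter (fun p => p.Prime ∧ (2 * n - p).Prime)).card

/-- The residues `x` modulo `r` for which `x` and `2 n - x` are prime to `r`. -/
def unitResidues (r n : ℕ) : Finset ℕ :=
  (range r).filter (fun x : ℕ => Int.gcd x r = 1 ∧ Int.gcd (2 * n - x) r = 1)

/-- The mean over these residues of `(1 - y χ (x)) (1 - y χ (2 n - x))`. -/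
noncomputable def twist {r : ℕ} (χ : DirichletCharacter ℂ r) (y : ℝ) (n : ℕ) : ℝ :=
  (∑ x ∈ unitResidues r n, (1 - y * (χ ((x : ℤ) : ZMod r)).re) * (1 - y * (χ ((2 * n - x : ℤ) : ZMod r)).re)) /
    (unitResidues r n).card

/-- The asymptotic formula for the number of the representations of `2 n` as a sum of two primes, for all intervals of
length at least `N ^ (1 - δ)`. -/
def Good {r : ℕ} (ε δ c : ℝ) (D N : ℕ) (χ : DirichletCharacter ℂ r) (y : ℝ) (n : ℕ) : Prop :=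
  (1 - y) ^ 2 ≤ twist χ y n ∧ twist χ y n ≤ 4 ∧ ∃ S : ℝ, IsSingularSeries n S ∧ c ≤ S ∧
    ∀ u v : ℕ, 1 ≤ u → v ≤ 2 * n → v ≤ 2 * N → (N : ℝ) ^ (1 - δ) ≤ (v : ℝ) - u →
      |(representations n u v : ℝ) - twist χ y n * S * (((v : ℝ) - u) / Real.log N ^ 2)| ≤
          ε * (twist χ y n * S * (((v : ℝ) - u) / Real.log N ^ 2)) ∧
      (¬ r ∣ D * n ^ 2 →
        |(representations n u v : ℝ) - S * (((v : ℝ) - u) / Real.log N ^ 2)| ≤
          ε * (S * (((v : ℝ) - u) / Real.log N ^ 2)))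

/-- The number of the primes `p < n` with `n - p ≤ L` for which `2 n - p` is prime. -/
noncomputable def closePairs (n : ℕ) (L : ℝ) : ℕ := by
  classical
  exact ((range n).filter (fun p : ℕ => p.Prime ∧ (2 * n - p).Prime ∧ (n : ℝ) - p ≤ L)).card

/-- The additive energy of order `t` of the family `f x`, `x ∈ X`: the number of the solutions of
`f x_1 + ⋯ + f x_t = f y_1 + ⋯ + f y_t` with `x_i, y_i ∈ X`. -/
def energy {ι : Type} (X : Finset ι) (f : ι → ℤ) (t : ℕ) : ℕ :=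
  ((Fintype.piFinset (fun _ : Fin t => X) ×ˢ Fintype.piFinset (fun _ : Fin t => X)).filter
    (fun p => ∑ i, f (p.1 i) = ∑ i, f (p.2 i))).card

/-- The integers `f x`, `x ∈ X`, have absolute values at most `N ^ (1 + δ)`, and their additive energy of order `t` is
at most `N ^ (δ - 1) |X| ^ (2 t)`. -/
def SmallEnergy {ι : Type} (δ : ℝ) (N t : ℕ) (X : Finset ι) (f : ι → ℤ) : Prop :=
  (∀ x ∈ X, ((|f x| : ℤ) : ℝ) ≤ (N : ℝ) ^ (1 + δ)) ∧ (N : ℝ) ^ (1 - δ) * energy X f t ≤ (X.card : ℝ) ^ (2 * t)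

/-- The integer points `x` with `|x i| ≤ P` for all `i`. -/
noncomputable def box (n P : ℕ) : Finset (Fin n → ℤ) := Fintype.piFinset (fun _ => Icc (-(P : ℤ)) P)

/-- The admissible polynomials at the scale `N`: the degree `d` of `F` is between `1` and `K`, `P ^ d ≥ N ^ (1 - δ)`,
and `|F (x)| ≤ N ^ (1 + δ)` for `0 ≤ x < P`. -/
def Family (K : ℕ) (δ : ℝ) (N P : ℕ) (F : ℤ[X]) : Prop :=
  1 ≤ F.natDegree ∧ F.natDegree ≤ K ∧ (N : ℝ) ^ (1 - δ) ≤ (P : ℝ) ^ F.natDegree ∧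
    ∀ x : ℕ, x < P → ((|F.eval (x : ℤ)| : ℤ) : ℝ) ≤ (N : ℝ) ^ (1 + δ)

/-- The asymptotic formula for the number of the representations of `2 n` as a sum of two primes without the factor
`T`, for all intervals `[u, v)` inside `[1, 2 n)` and `[1, 2 N)` of length at least `N ^ (1 - δ)`. -/
def Predicted (ε δ : ℝ) (N n : ℕ) : Prop :=
  ∃ S : ℝ, IsSingularSeries n S ∧ 0 < S ∧
    ∀ u v : ℕ, 1 ≤ u → v ≤ 2 * n → v ≤ 2 * N → (N : ℝ) ^ (1 - δ) ≤ (v : ℝ) - u →
      |(representations n u v : ℝ) - S * (((v : ℝ) - u) / Real.log N ^ 2)| ≤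
        ε * (S * (((v : ℝ) - u) / Real.log N ^ 2))

open Classical in
/-- The property `P` holds at most scales: the set of the positive integers `N` with the property `P` has upper
logarithmic density at least `1 - ε`. Precisely, for arbitrarily large `R` the sum of `1 / N` over the `N ≤ R`
without the property is at most `ε log R`. -/
def MostScales (ε : ℝ) (P : ℕ → Prop) : Prop :=
  ∀ R₀ : ℕ, ∃ R : ℕ, R₀ ≤ R ∧ ∑ N ∈ (Icc 1 R).filter (fun N => ¬ P N), (1 : ℝ) / N ≤ ε * Real.log R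

lemma nu_eq {n p : ℕ} (hp : p.Prime) :
    Pool.Agent.Helper86.PS.nuP (Pool.Agent.Helper86.PE.pa (-1)) (Pool.Agent.Helper86.PE.ph (2 * n : ℤ)) p = nu n p := by
  have hp0 : (0 : ℤ) < p := by exact_mod_cast hp.pos
  obtain ⟨t, ht⟩ : ∃ t : ℕ, t = 2 * n % p := ⟨_, rfl⟩
  have htp : t < p := by rw [ht]; exact Nat.mod_lt _ hp.pos
  have hset : (range p).filter (fun x : ℕ => ∃ i, (p : ℤ) ∣ Pool.Agent.Helper86.PE.pa (-1) i * x +
      Pool.Agent.Helper86.PE.ph (2 * n : ℤ) i) = {0, t} := by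
    ext x
    rw [mem_filter, mem_range, mem_insert, mem_singleton, Fin.exists_fin_two]
    simp only [Pool.Agent.Helper86.PE.pa, Pool.Agent.Helper86.PE.ph, Matrix.cons_val_zero, Matrix.cons_val_one, one_mul,
      add_zero]
    constructor
    · rintro ⟨hx, h | h⟩
      · left
        have h1 : p ∣ x := by exact_mod_cast h
        exact Nat.eq_zero_of_dvd_of_lt h1 hx
      · right
        have h1 : (x : ℤ) ≡ ((2 * n : ℕ) : ℤ) [ZMOD p] := by
          rw [Int.modEq_iff_dvd]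
          push_cast
          have e : (2 * (n : ℤ)) - x = -1 * x + 2 * n := by ring
          rw [e]
          exact h
        have h2 := (Int.natCast_modEq_iff).1 h1
        unfold Nat.ModEq at h2
        rw [Nat.mod_eq_of_lt hx] at h2
        rw [h2, ht]
    · rintro (h0 | h0)
      · rw [h0]
        exact ⟨hp.pos, Or.inl (by simp)⟩
      · rw [h0]
        refine ⟨htp, Or.inr ?_⟩
        have h1 : ((2 * n % p : ℕ) : ℤ) ≡ ((2 * n : ℕ) : ℤ) [ZMOD p] := (Int.natCast_modEq_iff).2 (Nat.mod_modEq _ _)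
        have h2 := (Int.modEq_iff_dvd).1 h1
        rw [← ht] at h2
        push_cast at h2
        have e : -1 * (t : ℤ) + 2 * n = 2 * n - t := by ring
        rw [e]
        exact h2
  unfold Pool.Agent.Helper86.PS.nuP nu
  rw [hset]
  split_ifs with h
  · have : t = 0 := by rw [ht]; exact Nat.mod_eq_zero_of_dvd h
    rw [this]
    simp
  · have : (0 : ℕ) ≠ t := by
      intro h0
      apply h
      rw [ht] at h0
      exact Nat.dvd_of_mod_eq_zero h0.symm
    exact card_pair this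

lemma nu_lt {n p : ℕ} (hp : p.Prime) : nu n p < p := by
  unfold nu
  split_ifs with h
  · exact hp.one_lt
  · rcases hp.two_le.eq_or_lt with h2 | h2
    · exfalso
      apply h
      rw [← h2]
      exact dvd_mul_right 2 n
    · exact h2

lemma twG_eq (r n : ℕ) : Pool.Agent.Helper86.EA.twG r (Pool.Agent.Helper86.PE.pa (-1))
    (Pool.Agent.Helper86.PE.ph (2 * n : ℤ)) = unitResidues r n := by
  unfold Pool.Agent.Helper86.EA.twG unitResidues
  apply filter_congr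
  intro x _
  rw [Fin.forall_fin_two]
  simp only [Pool.Agent.Helper86.PE.pa, Pool.Agent.Helper86.PE.ph, Matrix.cons_val_zero, Matrix.cons_val_one, one_mul,
    add_zero]
  rw [show (-1 : ℤ) * x + 2 * n = 2 * n - x by ring]

lemma twA_eq (j : Pool.Agent.Helper86.PS.PC) (y : ℝ) (n : ℕ) : Pool.Agent.Helper86.EA.twA j y (Pool.Agent.Helper86.PE.pa (-1))
    (Pool.Agent.Helper86.PE.ph (2 * n : ℤ)) = twist j.2 y n := by
  unfold Pool.Agent.Helper86.EA.twA twist
  rw [twG_eq]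
  congr 1
  apply sum_congr rfl
  intro x _
  rw [Fin.prod_univ_two]
  simp only [Pool.Agent.Helper86.PE.pa, Pool.Agent.Helper86.PE.ph, Matrix.cons_val_zero, Matrix.cons_val_one, one_mul,
    add_zero]
  rw [show (-1 : ℤ) * x + 2 * n = 2 * n - x by ring]
  rfl

lemma reps_eq (n u v : ℕ) : Pool.Agent.Helper86.PS.pc (Pool.Agent.Helper86.PE.pa (-1))
    (Pool.Agent.Helper86.PE.ph (2 * n : ℤ)) u v = representations n u v := by
  unfold Pool.Agent.Helper86.PS.pc representations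
  symm
  apply card_bij (fun (p : ℕ) _ => (p : ℤ))
  · intro p hp
    rw [mem_filter, mem_Ico] at hp ⊢
    refine ⟨⟨by exact_mod_cast hp.1.1, by exact_mod_cast hp.1.2⟩, ?_⟩
    rw [Fin.forall_fin_two]
    simp only [Pool.Agent.Helper86.PE.pa, Pool.Agent.Helper86.PE.ph, Matrix.cons_val_zero, Matrix.cons_val_one, one_mul,
      add_zero, Int.toNat_natCast]
    refine ⟨hp.2.1, ?_⟩
    have e : (-1 * (p : ℤ) + 2 * n).toNat = 2 * n - p := by omega
    rw [e]
    exact hp.2.2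
  · intro p _ q _ h
    exact_mod_cast h
  · intro z hz
    rw [mem_filter, mem_Ico] at hz
    have hz0 : 0 ≤ z := le_trans (Int.natCast_nonneg u) hz.1.1
    obtain ⟨p, rfl⟩ := Int.eq_ofNat_of_zero_le hz0
    refine ⟨p, ?_, rfl⟩
    rw [mem_filter, mem_Ico]
    refine ⟨⟨by exact_mod_cast hz.1.1, by exact_mod_cast hz.1.2⟩, ?_⟩
    have h0 := hz.2 0
    have h1 := hz.2 1
    simp only [Pool.Agent.Helper86.PE.pa, Pool.Agent.Helper86.PE.ph, Matrix.cons_val_zero, Matrix.cons_val_one, one_mul,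
      add_zero, Int.ofNat_eq_natCast, Int.toNat_natCast] at h0 h1
    have e : (-1 * (p : ℤ) + 2 * n).toNat = 2 * n - p := by omega
    rw [e] at h1
    exact ⟨h0, h1⟩

lemma small_mono {ι : Type} {δ δ' : ℝ} {N t : ℕ} {X : Finset ι} {f : ι → ℤ} (hN : 1 ≤ N) (h : δ ≤ δ')
    (hs : SmallEnergy δ N t X f) : SmallEnergy δ' N t X f := by
  have hN1r : (1 : ℝ) ≤ N := by exact_mod_cast hN
  refine ⟨fun x hx => (hs.1 x hx).trans (Real.rpow_le_rpow_of_exponent_le hN1r (by linarith)), le_trans ?_ hs.2⟩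
  exact mul_le_mul_of_nonneg_right (Real.rpow_le_rpow_of_exponent_le hN1r (by linarith)) (Nat.cast_nonneg _)

open Classical in
/-- the first part -/
theorem part1 (K : ℕ) (ε : ℝ) (hε : 0 < ε) : ∃ D : ℕ, 0 < D ∧ ∃ δ : ℝ, 0 < δ ∧ ∃ c : ℝ, 0 < c ∧
    ∀ B : ℕ, ∀ κ : ℝ, 0 < κ → ∃ N₀ : ℕ, ∀ N : ℕ, N₀ ≤ N →
    ∃ r : ℕ, ∃ _ : NeZero r, Real.log N ^ B ≤ r ∧ ∃ χ : DirichletCharacter ℂ r, χ ^ 2 = 1 ∧
    ∃ y : ℝ, 0 ≤ y ∧ y ≤ 1 - (N : ℝ) ^ (-κ) ∧
      (y = 0 ∨ (χ.IsPrimitive ∧ χ ≠ 1 ∧ ∃ β : ℝ, y = (N : ℝ) ^ (β - 1) ∧ χ.LFunction β = 0)) ∧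
      ∀ (ι : Type) (X : Finset ι) (f : ι → ℤ) (t : ℕ), 1 ≤ t → t ≤ K → SmallEnergy δ N t X f →
        ((X.filter (fun x => ∃ n : ℕ, 1 ≤ n ∧ ((|2 * n - f x| : ℤ) : ℝ) ≤ (N : ℝ) ^ δ ∧
          ¬ Good ε δ c D N χ y n)).card : ℝ) ≤ (N : ℝ) ^ (-δ) * X.card := by
  obtain ⟨D, hD, δ, hδ, c, hc, hm⟩ := Pool.Agent.Helper86.SE.everyH K hε
  refine ⟨D * 4, by omega, δ, hδ, c, hc, fun B κ hκ => ?_⟩
  obtain ⟨N₀, hN₀⟩ := hm B κ hκ
  refine ⟨N₀ + 1, fun N hN => ?_⟩
  obtain ⟨j, hr, hj2, y, hy0, hyκ, hyβ, hP⟩ := hN₀ N (by omega)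
  have hN1r : (1 : ℝ) ≤ N := by exact_mod_cast (by omega : 1 ≤ N)
  refine ⟨j.1 + 1, inferInstance, hr, j.2, hj2, y, hy0, hyκ, hyβ, fun ι X f t ht1 htK hXf => ?_⟩
  obtain ⟨X', f', e, hinj, heX, hXe, hcard', hfe, hnrg⟩ := Pool.Agent.Helper86.SE.transfer X f
  obtain ⟨E, hE1, hE2⟩ := hP (-1) (by norm_num) (by
    have := Real.one_le_rpow hN1r hδ.le
    simpa using this) t X' f' ht1 htK ⟨fun z hz => by
      obtain ⟨x, hx, rfl⟩ := hXe z hz
      rw [hfe x hx]
      exact hXf.1 x hx, by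
      rw [hcard']
      refine le_trans (mul_le_mul_of_nonneg_left ?_ (Real.rpow_nonneg (by linarith) _)) hXf.2
      exact_mod_cast hnrg t⟩
  rw [hcard'] at hE1
  refine le_trans ?_ hE1
  have hcard : (X.filter (fun x => ∃ n : ℕ, 1 ≤ n ∧ ((|2 * n - f x| : ℤ) : ℝ) ≤ (N : ℝ) ^ δ ∧
      ¬ Good ε δ c (D * 4) N j.2 y n)).card ≤ E.card := by
    apply card_le_card_of_injOn e
    · intro x hx
      rw [mem_coe, mem_filter] at hx
      rw [mem_coe]
      by_contra hxE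
      obtain ⟨hxX, n, hn, hnF, hng⟩ := hx
      apply hng
      obtain ⟨hT1, hT2, S, hS, hcS, hS2⟩ := hE2 (e x) (heX x hxX) hxE (2 * n) (by omega) (by rw [hfe x hxX]; exact hnF)
        (fun p hp => by rw [nu_eq hp]; exact nu_lt hp)
      rw [twA_eq] at hT1 hT2 hS2
      have h4 : (2 : ℝ) ^ 2 = 4 := by norm_num
      rw [h4] at hT2
      refine ⟨hT1, hT2, S, ?_, hcS, fun u v hu hv hvN hW => ?_⟩
      · unfold IsSingularSeries
        have e : (fun p : Nat.Primes => (1 - (nu n p : ℝ) / (p : ℕ)) * ((1 - 1 / ((p : ℕ) : ℝ))⁻¹) ^ 2) =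
            fun p : Nat.Primes => Pool.Agent.Helper86.PS.facP (Pool.Agent.Helper86.PE.pa (-1))
              (Pool.Agent.Helper86.PE.ph (2 * n : ℤ)) (p : ℕ) := by
          funext p
          unfold Pool.Agent.Helper86.PS.facP
          rw [nu_eq p.2]
        rw [e]
        exact hS
      · have hcast : (((v : ℤ) - (u : ℤ) : ℤ) : ℝ) = (v : ℝ) - u := by push_cast; ring
        obtain ⟨g1, g2⟩ := hS2 u v (by
            have : (0 : ℤ) ≤ N := Int.natCast_nonneg _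
            have : (0 : ℤ) ≤ u := Int.natCast_nonneg _
            linarith) (by exact_mod_cast hvN) (by rw [hcast]; exact hW) (by
          intro z hz i
          rw [mem_Ico] at hz
          have hu' : (1 : ℤ) ≤ u := by exact_mod_cast hu
          have hv' : (v : ℤ) ≤ 2 * n := by exact_mod_cast hv
          fin_cases i
          · simp only [Pool.Agent.Helper86.PE.pa, Pool.Agent.Helper86.PE.ph, Fin.zero_eta, Matrix.cons_val_zero]
            linarith
          · simp only [Pool.Agent.Helper86.PE.pa, Pool.Agent.Helper86.PE.ph, Fin.mk_one, Matrix.cons_val_one,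
              Matrix.cons_val_fin_one, Matrix.cons_val_zero]
            linarith)
        rw [hcast, reps_eq] at g1 g2
        refine ⟨g1, fun hnd => g2 ?_⟩
        intro hdvd
        apply hnd
        have e : (D : ℤ) * ((2 * (n : ℤ)) ^ 2 * -1) = -((D * 4 * n ^ 2 : ℕ) : ℤ) := by
          push_cast
          ring
        rw [e, dvd_neg] at hdvd
        exact_mod_cast hdvd
    · exact hinj.mono (fun x hx => (mem_filter.1 (mem_coe.1 hx)).1)
  exact_mod_cast hcard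

lemma close_ge (n : ℕ) {L : ℝ} (hL : 0 ≤ L) (hLn : L < n) : representations n (n - ⌊L⌋₊) n ≤ closePairs n L := by
  classical
  unfold representations closePairs
  apply card_le_card
  intro p hp
  rw [mem_filter, mem_Ico] at hp
  rw [mem_filter, mem_range]
  refine ⟨hp.1.2, hp.2.1, hp.2.2, ?_⟩
  have h1 : ⌊L⌋₊ ≤ n := by
    have : (⌊L⌋₊ : ℝ) ≤ n := (Nat.floor_le hL).trans hLn.le
    exact_mod_cast this
  have h2 : n ≤ p + ⌊L⌋₊ := by omega
  have h3 : (n : ℝ) ≤ p + ⌊L⌋₊ := by exact_mod_cast h2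
  have := Nat.floor_le hL
  linarith

open Classical in
/-- the second part -/
theorem part2 (K : ℕ) : ∃ δ : ℝ, 0 < δ ∧ ∀ κ : ℝ, 0 < κ → ∃ N₀ : ℕ, ∀ N : ℕ, N₀ ≤ N →
    ∀ (ι : Type) (X : Finset ι) (f : ι → ℤ) (t : ℕ), 1 ≤ t → t ≤ K → SmallEnergy δ N t X f →
      ((X.filter (fun x => ∃ n : ℕ, ((|2 * n - f x| : ℤ) : ℝ) ≤ (N : ℝ) ^ δ ∧
        (N : ℝ) ^ (1 - δ) < n ∧ n ≤ 2 * N ∧ (closePairs n ((N : ℝ) ^ (1 - δ)) : ℝ) < (N : ℝ) ^ (1 - δ - κ))).card : ℝ) ≤
          (N : ℝ) ^ (-δ) * X.card := by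
  obtain ⟨D, hD, δ0, hδ0, c, hc, hm⟩ := part1 K (1 / 2) (by norm_num)
  obtain ⟨δ, hδ⟩ : ∃ δ : ℝ, δ = min (δ0 / 2) (1 / 2) := ⟨_, rfl⟩
  have hδ0' : 0 < δ := by rw [hδ]; exact lt_min (by positivity) (by norm_num)
  have hδ1 : δ ≤ δ0 / 2 := by rw [hδ]; exact min_le_left _ _
  have hδ2 : δ ≤ 1 / 2 := by rw [hδ]; exact min_le_right _ _
  refine ⟨δ, hδ0', fun κ hκ => ?_⟩
  obtain ⟨N₁, hN₁⟩ := hm 0 (κ / 4) (by positivity)
  obtain ⟨N₂, hN₂⟩ := Pool.Agent.Helper86.PS.ev_log (4 / c) 2 (a := κ / 2) (by positivity)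
  obtain ⟨N₃, hN₃⟩ := Pool.Agent.Helper86.PS.ev_log 2 0 (a := δ) hδ0'
  refine ⟨N₁ + N₂ + N₃ + 3, fun N hN ι X f t ht1 htK hF => ?_⟩
  have hNr : (3 : ℝ) ≤ N := by exact_mod_cast (by omega : 3 ≤ N)
  have hN1r : (1 : ℝ) ≤ N := by linarith
  have hN0 : (0 : ℝ) < N := by linarith
  have hl0 : 0 < Real.log N := Real.log_pos (by linarith)
  have hmon : ∀ x z : ℝ, x ≤ z → (N : ℝ) ^ x ≤ (N : ℝ) ^ z := fun x z h => Real.rpow_le_rpow_of_exponent_le hN1r h
  obtain ⟨r, hr0, -, χ, -, y, hy0, hyκ, -, hP⟩ := hN₁ N (by omega)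
  have hPF := hP ι X f t ht1 htK (small_mono (by omega) (by linarith) hF)
  refine le_trans ?_ (hPF.trans (mul_le_mul_of_nonneg_right (hmon _ _ (by linarith)) (Nat.cast_nonneg _)))
  have hsub : X.filter (fun x => ∃ n : ℕ, ((|2 * n - f x| : ℤ) : ℝ) ≤ (N : ℝ) ^ δ ∧
      (N : ℝ) ^ (1 - δ) < n ∧ n ≤ 2 * N ∧ (closePairs n ((N : ℝ) ^ (1 - δ)) : ℝ) < (N : ℝ) ^ (1 - δ - κ)) ⊆
      X.filter (fun x => ∃ n : ℕ, 1 ≤ n ∧ ((|2 * n - f x| : ℤ) : ℝ) ≤ (N : ℝ) ^ δ0 ∧
        ¬ Good (1 / 2) δ0 c D N χ y n) := by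
    intro x hx
    rw [mem_filter] at hx ⊢
    obtain ⟨hxP, n, hnF, hnL, hnN, hlt⟩ := hx
    obtain ⟨L, hL⟩ : ∃ L : ℝ, L = (N : ℝ) ^ (1 - δ) := ⟨_, rfl⟩
    rw [← hL] at hnL hlt
    have hL1 : 1 ≤ L := by rw [hL]; exact Real.one_le_rpow hN1r (by linarith)
    have hn1 : 1 ≤ n := by
      have : (1 : ℝ) < n := lt_of_le_of_lt hL1 hnL
      have : (1 : ℕ) < n := by exact_mod_cast this
      omega
    refine ⟨hxP, n, hn1, hnF.trans (hmon _ _ (by linarith)), fun hg => ?_⟩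
    apply absurd hlt
    push Not
    obtain ⟨hT1, -, S, -, hcS, hmain⟩ := hg
    have hfl : (⌊L⌋₊ : ℝ) ≤ L := Nat.floor_le (by linarith)
    have hfln : ⌊L⌋₊ < n := by
      have : (⌊L⌋₊ : ℝ) < n := lt_of_le_of_lt hfl hnL
      exact_mod_cast this
    have hfl2 : L - 1 < ⌊L⌋₊ := by
      have := Nat.lt_floor_add_one L
      linarith
    have h2δ : 2 * (N : ℝ) ^ (1 - 2 * δ) ≤ L := by
      have e1 := hN₃ N (by omega)
      rw [pow_zero, mul_one] at e1
      have e2 : L = (N : ℝ) ^ δ * (N : ℝ) ^ (1 - 2 * δ) := by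
        rw [hL, ← Real.rpow_add hN0]
        congr 1
        ring
      rw [e2]
      exact mul_le_mul_of_nonneg_right e1 (Real.rpow_nonneg hN0.le _)
    have h1δ : 1 ≤ (N : ℝ) ^ (1 - 2 * δ) := Real.one_le_rpow hN1r (by linarith)
    have hcast : ((n : ℕ) : ℝ) - ((n - ⌊L⌋₊ : ℕ) : ℝ) = ⌊L⌋₊ := by
      rw [Nat.cast_sub hfln.le]
      ring
    have hlow := (hmain (n - ⌊L⌋₊) n (by omega) (by omega) hnN (by
      rw [hcast]
      refine (hmon (1 - δ0) (1 - 2 * δ) (by linarith)).trans ?_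
      linarith)).1
    rw [hcast] at hlow
    have hcl : (representations n (n - ⌊L⌋₊) n : ℝ) ≤ closePairs n L := by
      exact_mod_cast close_ge n (by linarith) hnL
    refine le_trans ?_ hcl
    obtain ⟨T, hT⟩ : ∃ T : ℝ, T = twist χ y n := ⟨_, rfl⟩
    rw [← hT] at hT1 hlow
    have hW : L / 2 ≤ ⌊L⌋₊ := by linarith
    have hy2 : (N : ℝ) ^ (-(κ / 2)) ≤ (1 - y) ^ 2 := by
      have e1 : ((N : ℝ) ^ (-(κ / 4))) ^ 2 ≤ (1 - y) ^ 2 :=
        pow_le_pow_left₀ (Real.rpow_nonneg hN0.le _) (by linarith) 2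
      refine le_trans (le_of_eq ?_) e1
      rw [← Real.rpow_natCast, ← Real.rpow_mul hN0.le]
      congr 1
      push_cast
      ring
    have hS0 : 0 ≤ S := hc.le.trans hcS
    have hT0 : 0 ≤ T := le_trans (by positivity) hT1
    have hlog2 : 0 < Real.log N ^ 2 := by positivity
    have hLW : L / 2 / Real.log N ^ 2 ≤ (⌊L⌋₊ : ℝ) / Real.log N ^ 2 := div_le_div_of_nonneg_right hW hlog2.le
    have hmainge : (N : ℝ) ^ (-(κ / 2)) * c * (L / 2 / Real.log N ^ 2) ≤ T * S * ((⌊L⌋₊ : ℝ) / Real.log N ^ 2) := by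
      apply mul_le_mul (mul_le_mul (hy2.trans hT1) hcS hc.le hT0) hLW (by positivity) (mul_nonneg hT0 hS0)
    have h5 := (abs_le.1 hlow).1
    have h6 : (N : ℝ) ^ (1 - δ - κ) ≤ 1 / 2 * ((N : ℝ) ^ (-(κ / 2)) * c * (L / 2 / Real.log N ^ 2)) := by
      have e1 := hN₂ N (by omega)
      have e2 : (N : ℝ) ^ (1 - δ - κ) = (N : ℝ) ^ (-(κ / 2)) * ((N : ℝ) ^ (-(κ / 2)) * L) := by
        rw [hL, ← Real.rpow_add hN0, ← Real.rpow_add hN0]
        congr 1
        ring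
      have e3 : (N : ℝ) ^ (-(κ / 2)) ≤ c / 4 / Real.log N ^ 2 := by
        rw [le_div_iff₀ hlog2, Real.rpow_neg hN0.le, inv_mul_le_iff₀ (Real.rpow_pos_of_pos hN0 _)]
        rw [div_mul_eq_mul_div, div_le_iff₀ hc] at e1
        linarith
      rw [e2]
      calc (N : ℝ) ^ (-(κ / 2)) * ((N : ℝ) ^ (-(κ / 2)) * L) ≤ (N : ℝ) ^ (-(κ / 2)) * (c / 4 / Real.log N ^ 2 * L) := by
            apply mul_le_mul_of_nonneg_left _ (Real.rpow_nonneg hN0.le _)
            exact mul_le_mul_of_nonneg_right e3 (by linarith)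
        _ = _ := by ring
    linarith
  exact_mod_cast card_le_card hsub

open Classical in
/-- the third part -/
theorem part3 (K : ℕ) (ε : ℝ) (hε : 0 < ε) : ∃ δ : ℝ, 0 < δ ∧ MostScales ε (fun N =>
    ∀ (ι : Type) (X : Finset ι) (f : ι → ℤ) (t : ℕ), 1 ≤ t → t ≤ K → SmallEnergy δ N t X f →
      ((X.filter (fun x => ∃ n : ℕ, 1 ≤ n ∧ ((|2 * n - f x| : ℤ) : ℝ) ≤ (N : ℝ) ^ δ ∧
        ¬ Predicted ε δ N n)).card : ℝ) ≤ (N : ℝ) ^ (-δ) * X.card) := by
  obtain ⟨δ, hδ, hm⟩ := Pool.Agent.Helper86.SE.mostH K hε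
  refine ⟨δ, hδ, fun R₀ => ?_⟩
  obtain ⟨R, hR, hsum⟩ := hm R₀
  refine ⟨R, hR, le_trans ?_ hsum⟩
  apply sum_le_sum_of_subset_of_nonneg
  · intro N hN
    rw [mem_filter] at hN ⊢
    refine ⟨hN.1, fun hP => hN.2 ?_⟩
    have hN1 : 1 ≤ N := (mem_Icc.1 hN.1).1
    have hN1r : (1 : ℝ) ≤ N := by exact_mod_cast hN1
    intro ι X f t ht1 htK hXf
    obtain ⟨X', f', e, hinj, heX, hXe, hcard', hfe, hnrg⟩ := Pool.Agent.Helper86.SE.transfer X f
    obtain ⟨E, hE1, hE2⟩ := hP (-1) (by norm_num) (by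
      have := Real.one_le_rpow hN1r hδ.le
      simpa using this) t X' f' ht1 htK ⟨fun z hz => by
        obtain ⟨x, hx, rfl⟩ := hXe z hz
        rw [hfe x hx]
        exact hXf.1 x hx, by
        rw [hcard']
        refine le_trans (mul_le_mul_of_nonneg_left ?_ (Real.rpow_nonneg (by linarith) _)) hXf.2
        exact_mod_cast hnrg t⟩
    rw [hcard'] at hE1
    refine le_trans ?_ hE1
    have hcard : (X.filter (fun x => ∃ n : ℕ, 1 ≤ n ∧ ((|2 * n - f x| : ℤ) : ℝ) ≤ (N : ℝ) ^ δ ∧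
        ¬ Predicted ε δ N n)).card ≤ E.card := by
      apply card_le_card_of_injOn e
      · intro x hx
        rw [mem_coe, mem_filter] at hx
        rw [mem_coe]
        by_contra hxE
        obtain ⟨hxX, n, hn, hnF, hng⟩ := hx
        apply hng
        obtain ⟨S, hS, hS2⟩ := hE2 (e x) (heX x hxX) hxE (2 * n) (by omega) (by rw [hfe x hxX]; exact hnF)
          (fun p hp => by rw [nu_eq hp]; exact nu_lt hp)
        refine ⟨S, ?_, Pool.Agent.Helper86.PS.S_pos (fun p hp => by rw [nu_eq hp]; exact nu_lt hp) hS,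
          fun u v hu hv hvN hW => ?_⟩
        · unfold IsSingularSeries
          have e : (fun p : Nat.Primes => (1 - (nu n p : ℝ) / (p : ℕ)) * ((1 - 1 / ((p : ℕ) : ℝ))⁻¹) ^ 2) =
              fun p : Nat.Primes => Pool.Agent.Helper86.PS.facP (Pool.Agent.Helper86.PE.pa (-1))
                (Pool.Agent.Helper86.PE.ph (2 * n : ℤ)) (p : ℕ) := by
            funext p
            unfold Pool.Agent.Helper86.PS.facP
            rw [nu_eq p.2]
          rw [e]
          exact hS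
        · have hcast : (((v : ℤ) - (u : ℤ) : ℤ) : ℝ) = (v : ℝ) - u := by push_cast; ring
          have g := hS2 u v (by
              have : (0 : ℤ) ≤ N := Int.natCast_nonneg _
              have : (0 : ℤ) ≤ u := Int.natCast_nonneg _
              linarith) (by exact_mod_cast hvN) (by rw [hcast]; exact hW) (by
            intro z hz i
            rw [mem_Ico] at hz
            have hu' : (1 : ℤ) ≤ u := by exact_mod_cast hu
            have hv' : (v : ℤ) ≤ 2 * n := by exact_mod_cast hv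
            fin_cases i
            · simp only [Pool.Agent.Helper86.PE.pa, Pool.Agent.Helper86.PE.ph, Fin.zero_eta, Matrix.cons_val_zero]
              linarith
            · simp only [Pool.Agent.Helper86.PE.pa, Pool.Agent.Helper86.PE.ph, Fin.mk_one, Matrix.cons_val_one,
                Matrix.cons_val_fin_one, Matrix.cons_val_zero]
              linarith)
          rw [hcast, reps_eq] at g
          exact g
      · exact hinj.mono (fun x hx => (mem_filter.1 (mem_coe.1 hx)).1)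
    exact_mod_cast hcard
  · intro N _ _
    positivity

/-- the fourth part -/
theorem part4 (K : ℕ) (δ : ℝ) (hδ : 0 < δ) : ∃ δ' : ℝ, 0 < δ' ∧ ∃ N₀ : ℕ, ∀ N : ℕ, N₀ ≤ N →
    ∀ (P : ℕ) (F : ℤ[X]), Family K δ' N P F →
      SmallEnergy δ N (2 ^ (F.natDegree - 1)) (range P) (fun x : ℕ => F.eval (x : ℤ)) := by
  obtain ⟨δ', hδ', N₀, h⟩ := Pool.Agent.Helper86.SE.pol_small K hδ
  refine ⟨min δ' δ, lt_min hδ' hδ, N₀ + 1, fun N hN P F hF => ?_⟩
  have hN1r : (1 : ℝ) ≤ N := by exact_mod_cast (by omega : 1 ≤ N)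
  obtain ⟨h1, h2, h3, h4⟩ := hF
  refine ⟨fun x hx => (h4 x (mem_range.1 hx)).trans (Real.rpow_le_rpow_of_exponent_le hN1r ?_), ?_⟩
  · have := min_le_right δ' δ
    linarith
  · rw [card_range]
    exact h N (by omega) P F h1 h2 ((Real.rpow_le_rpow_of_exponent_le hN1r (by
      have := min_le_left δ' δ
      linarith)).trans h3) (fun x hx => (h4 x hx).trans (Real.rpow_le_rpow_of_exponent_le hN1r (by
      have := min_le_left δ' δ
      linarith)))

/-- the fifth part -/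
theorem part5 (n d : ℕ) (hd : 1 ≤ d) (Φ : MvPolynomial (Fin n) ℝ) (hΦ : Φ.IsHomogeneous d) (hΦ0 : Φ ≠ 0) :
    ∃ t : ℕ, 1 ≤ t ∧ ∀ δ : ℝ, 0 < δ → ∃ N₀ : ℕ, ∀ N : ℕ, N₀ ≤ N → ∀ P : ℕ, (N : ℝ) ^ (1 - δ / 2) ≤ (P : ℝ) ^ d →
      ∀ G : MvPolynomial (Fin n) ℝ, G.totalDegree < d →
      (∀ x ∈ box n P, ((|⌊MvPolynomial.eval (fun i => (x i : ℝ)) (Φ + G)⌋| : ℤ) : ℝ) ≤ (N : ℝ) ^ (1 + δ)) →
      SmallEnergy δ N t (box n P) (fun x => ⌊MvPolynomial.eval (fun i => (x i : ℝ)) (Φ + G)⌋) := by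
  obtain ⟨t, ht, h⟩ := Pool.Agent.Helper86.SE.real_small n d hd Φ hΦ hΦ0
  refine ⟨t, ht, fun δ hδ => ?_⟩
  obtain ⟨N₀, hN₀⟩ := h δ hδ
  exact ⟨N₀, fun N hN P hP G hG hB => ⟨hB, hN₀ N hN P hP G hG⟩⟩

open Classical in
/-- Goldbach's problem for families of small additive energy at every scale: an asymptotic formula for the number of
the representations, in all intervals, with the exceptional zero in the main term; the existence of representations
as sums of two distinct almost equal primes; at most scales the asymptotic formula without the exceptional factor; the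
values of integer polynomials and the integer parts of the values of real polynomials in several variables are families
of small energy. -/
theorem result :
    (∀ K : ℕ, ∀ ε : ℝ, 0 < ε → ∃ D : ℕ, 0 < D ∧ ∃ δ : ℝ, 0 < δ ∧ ∃ c : ℝ, 0 < c ∧
      ∀ B : ℕ, ∀ κ : ℝ, 0 < κ → ∃ N₀ : ℕ, ∀ N : ℕ, N₀ ≤ N →
      ∃ r : ℕ, ∃ _ : NeZero r, Real.log N ^ B ≤ r ∧ ∃ χ : DirichletCharacter ℂ r, χ ^ 2 = 1 ∧
      ∃ y : ℝ, 0 ≤ y ∧ y ≤ 1 - (N : ℝ) ^ (-κ) ∧
        (y = 0 ∨ (χ.IsPrimitive ∧ χ ≠ 1 ∧ ∃ β : ℝ, y = (N : ℝ) ^ (β - 1) ∧ χ.LFunction β = 0)) ∧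
        ∀ (ι : Type) (X : Finset ι) (f : ι → ℤ) (t : ℕ), 1 ≤ t → t ≤ K → SmallEnergy δ N t X f →
          ((X.filter (fun x => ∃ n : ℕ, 1 ≤ n ∧ ((|2 * n - f x| : ℤ) : ℝ) ≤ (N : ℝ) ^ δ ∧
            ¬ Good ε δ c D N χ y n)).card : ℝ) ≤ (N : ℝ) ^ (-δ) * X.card) ∧
    (∀ K : ℕ, ∃ δ : ℝ, 0 < δ ∧ ∀ κ : ℝ, 0 < κ → ∃ N₀ : ℕ, ∀ N : ℕ, N₀ ≤ N →
      ∀ (ι : Type) (X : Finset ι) (f : ι → ℤ) (t : ℕ), 1 ≤ t → t ≤ K → SmallEnergy δ N t X f →
        ((X.filter (fun x => ∃ n : ℕ, ((|2 * n - f x| : ℤ) : ℝ) ≤ (N : ℝ) ^ δ ∧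
          (N : ℝ) ^ (1 - δ) < n ∧ n ≤ 2 * N ∧ (closePairs n ((N : ℝ) ^ (1 - δ)) : ℝ) < (N : ℝ) ^ (1 - δ - κ))).card : ℝ) ≤
            (N : ℝ) ^ (-δ) * X.card) ∧
    (∀ K : ℕ, ∀ ε : ℝ, 0 < ε → ∃ δ : ℝ, 0 < δ ∧ MostScales ε (fun N =>
      ∀ (ι : Type) (X : Finset ι) (f : ι → ℤ) (t : ℕ), 1 ≤ t → t ≤ K → SmallEnergy δ N t X f →
        ((X.filter (fun x => ∃ n : ℕ, 1 ≤ n ∧ ((|2 * n - f x| : ℤ) : ℝ) ≤ (N : ℝ) ^ δ ∧
          ¬ Predicted ε δ N n)).card : ℝ) ≤ (N : ℝ) ^ (-δ) * X.card)) ∧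
    (∀ K : ℕ, ∀ δ : ℝ, 0 < δ → ∃ δ' : ℝ, 0 < δ' ∧ ∃ N₀ : ℕ, ∀ N : ℕ, N₀ ≤ N → ∀ (P : ℕ) (F : ℤ[X]), Family K δ' N P F →
      SmallEnergy δ N (2 ^ (F.natDegree - 1)) (range P) (fun x : ℕ => F.eval (x : ℤ))) ∧
    (∀ n d : ℕ, 1 ≤ d → ∀ Φ : MvPolynomial (Fin n) ℝ, Φ.IsHomogeneous d → Φ ≠ 0 →
      ∃ t : ℕ, 1 ≤ t ∧ ∀ δ : ℝ, 0 < δ → ∃ N₀ : ℕ, ∀ N : ℕ, N₀ ≤ N → ∀ P : ℕ, (N : ℝ) ^ (1 - δ / 2) ≤ (P : ℝ) ^ d →
      ∀ G : MvPolynomial (Fin n) ℝ, G.totalDegree < d →
      (∀ x ∈ box n P, ((|⌊MvPolynomial.eval (fun i => (x i : ℝ)) (Φ + G)⌋| : ℤ) : ℝ) ≤ (N : ℝ) ^ (1 + δ)) →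
      SmallEnergy δ N t (box n P) (fun x => ⌊MvPolynomial.eval (fun i => (x i : ℝ)) (Φ + G)⌋)) :=
  ⟨fun K ε hε => part1 K ε hε, fun K => part2 K, fun K ε hε => part3 K ε hε, fun K δ hδ => part4 K δ hδ,
    fun n d hd Φ hΦ hΦ0 => part5 n d hd Φ hΦ hΦ0⟩

end Pool.Agent.Results.MP_7b7e48_nt.SmallEnergyFamilies
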